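import Pool.Agent.H33.QS.NS

/-!
# The homogeneous lift of a near similarity is close to linear
-/

set_option autoImplicit false

open Set Filter Topology Metric

noncomputable section

namespace Pool.Agent.H33.QS

open Pool.Agent.H13.Wig (V inner_def inner_le_one norm_sub_sq_c exists_phase exists_close one_sub_le nz nz_unit
  pr norm_sub_pr)
open Pool.Agent.Q196.NP (Near)

variable {n : ℕ}

lemma pr_congr {a b : V n} (h : pm a = pm b) (x : V n) : pr a x = pr b x := by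
  have key : ∀ a : V n, ∀ i, pr a x i = ((√2 : ℝ) : ℂ) * ∑ j, pm a (i, j) * x j := by
    intro a i
    show (inner ℂ a x : ℂ) * a i = _
    have h2 : ((√2 : ℝ) : ℂ) * (((√2)⁻¹ : ℝ) : ℂ) = 1 := by
      rw [← Complex.ofReal_mul, mul_inv_cancel₀ (by positivity), Complex.ofReal_one]
    rw [inner_def, Finset.sum_mul, Finset.mul_sum]
    refine Finset.sum_congr rfl fun j _ => ?_
    rw [pm_apply]
    calc (starRingEnd ℂ) (a j) * x j * a i = 1 * ((starRingEnd ℂ) (a j) * x j * a i) := (one_mul _).symm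
      _ = _ := by rw [← h2]; ring
  ext i
  rw [key a, key b, h]

lemma pr_nz {z : V n} (hz : z ≠ 0) (x : V n) : pr (nz z) x = ((((‖z‖ ^ 2)⁻¹ : ℝ) : ℂ) * inner ℂ z x) • z := by
  unfold pr nz
  rw [inner_smul_left, Complex.conj_ofReal, smul_smul]
  congr 1
  have : ‖z‖ ≠ 0 := norm_ne_zero_iff.2 hz
  push_cast
  ring

lemma co_smul {f g : V n} {μ : ℂ} (hμ : ‖μ‖ = 1) : co (μ • f) g = μ • co f g := by
  unfold co
  have h1 : μ * (starRingEnd ℂ) μ = 1 := by
    rw [Complex.mul_conj, Complex.normSq_eq_norm_sq, hμ]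
    norm_num
  have hμ0 : μ ≠ 0 := fun h => by rw [h, norm_zero] at hμ; exact zero_ne_one hμ
  rw [inner_smul_left, smul_smul, smul_smul]
  have h2 : (starRingEnd ℂ) μ * inner ℂ f g * μ = inner ℂ f g := by
    calc (starRingEnd ℂ) μ * inner ℂ f g * μ = (μ * (starRingEnd ℂ) μ) * inner ℂ f g := by ring
      _ = _ := by rw [h1, one_mul]
  rw [h2, mul_inv]
  congr 1
  have h3 : ((starRingEnd ℂ) μ)⁻¹ = μ := by
    rw [inv_eq_iff_eq_inv]
    exact eq_inv_of_mul_eq_one_right h1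
  rw [h3]

/-- the lift -/
def lft (g : V n → V n) (x : V n) : V n := pr (g (nz x)) x

/-- the parameters of the estimate -/
theorem near_lft {g : V n → V n} (hg : ∀ v, ‖v‖ = 1 → ‖g v‖ = 1)
    (hph : ∀ p q, ‖p‖ = 1 → ‖q‖ = 1 → dd p q = 0 → pm (g p) = pm (g q))
    {ε t : ℝ} (ht0 : 0 < t) (ht1 : t ≤ 1 / 8) (ht : 100 * (2 * n + 1) * t ≤ ε)
    {v : V n} (hv : ‖v‖ = 1) {r : ℝ} (hr : 0 < r) (hrt : r ≤ t) (hns : NS t g v (2 * r))
    (hsm : ∀ y ∈ K v, ‖y‖ ≤ 2 * r → dd (g v) (g (ch v y)) ≤ t / 2)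
    (hB : ∀ y ∈ K v, ‖y‖ ≤ 2 * r → ‖W g v y‖ ^ 2 ≤ t * r) (hη : dd (g v) v ≤ t) :
    Near ε (lft g) v r := by
  classical
  obtain ⟨κ, hκ0, hκ⟩ := hns
  -- the phase of `g v`
  obtain ⟨ν, hν, hνz⟩ := exists_phase (inner ℂ (g v) v : ℂ)
  obtain ⟨μ, hμd⟩ : ∃ μ : ℂ, μ = (starRingEnd ℂ) ν := ⟨_, rfl⟩
  have hμ : ‖μ‖ = 1 := by rw [hμd, RCLike.norm_conj, hν]
  obtain ⟨f, hf⟩ : ∃ f : V n, f = μ • g v := ⟨_, rfl⟩
  have hf1 : ‖f‖ = 1 := by rw [hf, norm_smul, hμ, hg v hv, mul_one]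
  obtain ⟨c, hc⟩ : ∃ c : ℝ, c = ‖(inner ℂ (g v) v : ℂ)‖ := ⟨_, rfl⟩
  have hfv : (inner ℂ f v : ℂ) = (c : ℂ) := by
    rw [hf, inner_smul_left, hμd, Complex.conj_conj, hνz, hc]
  have hc1 : c ≤ 1 := by rw [hc]; exact inner_le_one (hg v hv) hv
  have hc0 : 0 ≤ c := by rw [hc]; exact norm_nonneg _
  have hdd := dd_sq (hg v hv) hv
  rw [← hc] at hdd
  have hdd0 := dd_nonneg (g v) v
  have hct : 1 - c ≤ t ^ 2 := by nlinarith
  have ht2 : t ^ 2 ≤ t / 8 := by nlinarith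
  have hchalf : 1 / 2 ≤ c := by linarith
  have hfv2 : ‖f - v‖ ≤ 2 * t := by
    have h1 : ‖f - v‖ ^ 2 ≤ (2 * t) ^ 2 := by
      rw [norm_sub_sq_c, hfv, hf1, hv, Complex.ofReal_re]
      nlinarith
    exact (pow_le_pow_iff_left₀ (norm_nonneg _) (by positivity) two_ne_zero).1 h1
  -- the coordinate
  obtain ⟨w, hw⟩ : ∃ w : V n → V n, ∀ y, w y = μ • W g v y := ⟨_, fun _ => rfl⟩
  have hwn : ∀ y, ‖w y‖ = ‖W g v y‖ := fun y => by rw [hw, norm_smul, hμ, one_mul]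
  have hwn2 : ∀ y z, ‖w y - w z‖ = ‖W g v y - W g v z‖ := fun y z => by
    rw [hw, hw, ← smul_sub, norm_smul, hμ, one_mul]
  have hwK : ∀ y, (inner ℂ f (w y) : ℂ) = 0 := by
    intro y
    have h1 := mem_K.1 (co_mem (g := g (ch v y)) (hg v hv))
    rw [hf, hw, inner_smul_left, inner_smul_right]
    unfold W
    rw [h1]
    ring
  have hw0 : w 0 = 0 := by
    rw [hw]
    unfold W
    rw [ch_zero hv, co_self (hg v hv), smul_zero]
  -- the basis
  obtain ⟨b, hb⟩ : ∃ b : OrthonormalBasis (Fin (Module.finrank ℝ (K v))) ℝ (K v), b = stdOrthonormalBasis ℝ (K v) :=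
    ⟨_, rfl⟩
  have hfin : (Module.finrank ℝ (K v) : ℝ) = 2 * n := by
    rw [finrank_K (unit_ne hv)]
    push_cast
    ring
  have hbn : ∀ i, ‖((b i : K v) : V n)‖ = 1 := fun i => b.orthonormal.1 i
  have hbs : ∀ y : V n, y ∈ K v → ∑ i, (inner ℝ ((b i : K v) : V n) y : ℝ) • ((b i : K v) : V n) = y := by
    intro y hy
    have h1 := b.sum_repr' (⟨y, hy⟩ : K v)
    have h2 := congrArg (Subtype.val) h1
    rw [Submodule.coe_sum] at h2
    exact h2
  obtain ⟨R, hR⟩ : ∃ R : ℝ, R = 2 * r := ⟨_, rfl⟩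
  have hR0 : 0 < R := by rw [hR]; linarith
  rw [← hR] at hκ hsm hB
  have hω : ∀ y ∈ K v, ‖y‖ ≤ R → ‖W g v y‖ ≤ t := by
    intro y hy hyR
    have h1 := hsm y hy hyR
    have h2 := norm_co (hg v hv) (hg _ (ch_unit hv hy)) (by linarith)
    unfold W
    linarith
  have hmem : ∀ i, R • ((b i : K v) : V n) ∈ K v := fun i => Submodule.smul_mem _ _ (b i).2
  have hnR : ∀ i, ‖R • ((b i : K v) : V n)‖ = R := fun i => by
    rw [norm_smul, hbn, mul_one, Real.norm_of_nonneg hR0.le]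
  -- the linear map on the complement
  obtain ⟨L', hL'⟩ : ∃ L' : V n →L[ℝ] V n, L' = ∑ i, ((κ ^ 2 / R) • innerSL ℝ (w (R • ((b i : K v) : V n)))).smulRight
      ((b i : K v) : V n) := ⟨_, rfl⟩
  have hL'a : ∀ z, L' z = ∑ i, (κ ^ 2 / R * inner ℝ (w (R • ((b i : K v) : V n))) z) • ((b i : K v) : V n) := by
    intro z
    rw [hL', _root_.sum_apply]
    rfl
  have hκw : ∀ y ∈ K v, ‖y‖ ≤ R → |κ * ‖w y‖ - ‖y‖| ≤ t * R := by
    intro y hy hyR
    have h1 := hκ y hy 0 (Submodule.zero_mem _) hyR (by rw [norm_zero]; exact hR0.le)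
    rw [← hwn2, hw0, sub_zero, sub_zero] at h1
    exact h1
  have hκw2 : ∀ y ∈ K v, ‖y‖ ≤ R → κ * ‖w y‖ ≤ 2 * R := by
    intro y hy hyR
    have h1 := (abs_le.1 (hκw y hy hyR)).2
    nlinarith
  have hL1 : ∀ y ∈ K v, ‖y‖ ≤ R → ‖L' (w y) - y‖ ≤ 2 * n * (8 * t * R) := by
    intro y hy hyR
    have e1 : L' (w y) - y = ∑ i, (κ ^ 2 / R * inner ℝ (w (R • ((b i : K v) : V n))) (w y) -
        inner ℝ ((b i : K v) : V n) y) • ((b i : K v) : V n) := by
      rw [hL'a]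
      nth_rewrite 2 [← hbs y hy]
      rw [← Finset.sum_sub_distrib]
      exact Finset.sum_congr rfl fun i _ => (sub_smul _ _ _).symm
    rw [e1]
    have hterm : ∀ i, ‖(κ ^ 2 / R * inner ℝ (w (R • ((b i : K v) : V n))) (w y) -
        inner ℝ ((b i : K v) : V n) y) • ((b i : K v) : V n)‖ ≤ 8 * t * R := by
      intro i
      rw [norm_smul, hbn, mul_one, Real.norm_eq_abs]
      obtain ⟨A, hA⟩ : ∃ A : V n, A = w (R • ((b i : K v) : V n)) := ⟨_, rfl⟩
      obtain ⟨B, hB'⟩ : ∃ B : V n, B = w y := ⟨_, rfl⟩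
      have h1 := hκw _ (hmem i) (hnR i).le
      have h2 := hκw y hy hyR
      have h3 := hκ _ (hmem i) y hy (hnR i).le hyR
      rw [← hwn2] at h3
      rw [hnR, ← hA] at h1
      rw [← hB'] at h2
      rw [← hA, ← hB'] at h3
      rw [← hA, ← hB']
      -- squares
      have hsq : ∀ x z m : ℝ, 0 ≤ x → 0 ≤ z → z ≤ 2 * R → |x - z| ≤ t * R → |x ^ 2 - z ^ 2| ≤ 5 * t * R ^ 2 := by
        intro x z _ hx hz hz2 hxz
        have h4 : x ^ 2 - z ^ 2 = (x - z) * (x + z) := by ring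
        rw [h4, abs_mul, abs_of_nonneg (by linarith : 0 ≤ x + z)]
        have h5 : x ≤ z + t * R := by linarith [(abs_le.1 hxz).2]
        have h6 : x + z ≤ 5 * R := by nlinarith
        calc |x - z| * (x + z) ≤ (t * R) * (5 * R) := mul_le_mul hxz h6 (by linarith) (by positivity)
          _ = 5 * t * R ^ 2 := by ring
      have q1 := hsq (κ * ‖A‖) R 0 (by positivity) hR0.le (by linarith) h1
      have q2 := hsq (κ * ‖B‖) ‖y‖ 0 (by positivity) (norm_nonneg _) (by linarith) h2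
      have q3 := hsq (κ * ‖A - B‖) ‖R • ((b i : K v) : V n) - y‖ 0 (by positivity) (norm_nonneg _) (by
        have := norm_sub_le (R • ((b i : K v) : V n)) y
        rw [hnR] at this
        linarith) h3
      have e2 : ‖A - B‖ ^ 2 = ‖A‖ ^ 2 - 2 * inner ℝ A B + ‖B‖ ^ 2 := norm_sub_sq_real A B
      have e3 : ‖R • ((b i : K v) : V n) - y‖ ^ 2 = R ^ 2 - 2 * (R * inner ℝ ((b i : K v) : V n) y) + ‖y‖ ^ 2 := by
        rw [norm_sub_sq_real, hnR, real_inner_smul_left]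
      rw [mul_pow] at q1 q2 q3
      rw [e2, e3] at q3
      have h7 : |κ ^ 2 * inner ℝ A B - R * inner ℝ ((b i : K v) : V n) y| ≤ 8 * t * R ^ 2 := by
        obtain ⟨a1, a2⟩ := abs_le.1 q1
        obtain ⟨a3, a4⟩ := abs_le.1 q2
        obtain ⟨a5, a6⟩ := abs_le.1 q3
        have htR : 0 ≤ t * R ^ 2 := by positivity
        rw [abs_le]
        constructor <;> nlinarith
      have e4 : κ ^ 2 / R * inner ℝ A B - inner ℝ ((b i : K v) : V n) y =
          R⁻¹ * (κ ^ 2 * inner ℝ A B - R * inner ℝ ((b i : K v) : V n) y) := by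
        field_simp
      rw [e4, abs_mul, abs_of_pos (inv_pos.2 hR0)]
      calc R⁻¹ * |κ ^ 2 * inner ℝ A B - R * inner ℝ ((b i : K v) : V n) y| ≤ R⁻¹ * (8 * t * R ^ 2) :=
            mul_le_mul_of_nonneg_left h7 (inv_pos.2 hR0).le
        _ = 8 * t * R := by field_simp
    refine (norm_sum_le _ _).trans ((Finset.sum_le_sum fun i _ => hterm i).trans (le_of_eq ?_))
    rw [Finset.sum_const, Finset.card_univ, Fintype.card_fin, nsmul_eq_mul, hfin]
  have hL2 : ∀ Z : V n, ‖L' Z‖ ≤ 2 * n * (2 * κ * ‖Z‖) := by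
    intro Z
    rw [hL'a]
    have hterm : ∀ i, ‖(κ ^ 2 / R * inner ℝ (w (R • ((b i : K v) : V n))) Z) • ((b i : K v) : V n)‖ ≤
        2 * κ * ‖Z‖ := by
      intro i
      rw [norm_smul, hbn, mul_one, norm_mul, Real.norm_of_nonneg (by positivity), Real.norm_eq_abs]
      have h1 := abs_real_inner_le_norm (w (R • ((b i : K v) : V n))) Z
      have h2 := hκw2 _ (hmem i) (hnR i).le
      calc κ ^ 2 / R * |inner ℝ (w (R • ((b i : K v) : V n))) Z| ≤
            κ ^ 2 / R * (‖w (R • ((b i : K v) : V n))‖ * ‖Z‖) := mul_le_mul_of_nonneg_left h1 (by positivity)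
        _ = κ / R * (κ * ‖w (R • ((b i : K v) : V n))‖) * ‖Z‖ := by ring
        _ ≤ κ / R * (2 * R) * ‖Z‖ := by gcongr
        _ = 2 * κ * ‖Z‖ := by field_simp
    refine (norm_sum_le _ _).trans ((Finset.sum_le_sum fun i _ => hterm i).trans (le_of_eq ?_))
    rw [Finset.sum_const, Finset.card_univ, Fintype.card_fin, nsmul_eq_mul, hfin]
  -- the linear map
  let P : V n →ₗ[ℝ] V n :=
    { toFun := fun Z => Z - (inner ℂ f Z : ℂ) • f
      map_add' := fun Z Z' => by rw [inner_add_right, add_smul]; abel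
      map_smul' := fun a Z => by
        rw [← Complex.coe_smul a Z, inner_smul_right, RingHom.id_apply, smul_sub, ← Complex.coe_smul a,
          ← Complex.coe_smul a, smul_smul] }
  let S : V n →ₗ[ℝ] V n :=
    { toFun := fun Z => ((inner ℂ f Z : ℂ) - (c : ℂ)⁻¹ * inner ℂ (P Z) v) • v
      map_add' := fun Z Z' => by
        rw [map_add, inner_add_right, inner_add_left, ← add_smul]
        congr 1
        ring
      map_smul' := fun a Z => by
        rw [map_smul, ← Complex.coe_smul a Z, ← Complex.coe_smul a (P Z), inner_smul_right, inner_smul_left,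
          Complex.conj_ofReal, RingHom.id_apply, ← Complex.coe_smul a, smul_smul]
        congr 1
        ring }
  let L : V n →L[ℝ] V n := L'.comp (LinearMap.toContinuousLinearMap P) + LinearMap.toContinuousLinearMap S
  have hLa : ∀ Z, L Z = L' (Z - (inner ℂ f Z : ℂ) • f) +
      ((inner ℂ f Z : ℂ) - (c : ℂ)⁻¹ * inner ℂ (Z - (inner ℂ f Z : ℂ) • f) v) • v := fun Z => rfl
  -- the lift in coordinates
  have hlft : ∀ y ∈ K v, ‖y‖ ≤ R → ∀ x : V n, pr (g (ch v y)) x =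
      (((1 + ‖w y‖ ^ 2)⁻¹ : ℝ) * inner ℂ (f + w y) x : ℂ) • (f + w y) := by
    intro y hy hyR x
    have hgy := hg _ (ch_unit hv hy)
    have h1 : (inner ℂ (g v) (g (ch v y)) : ℂ) ≠ 0 := inner_ne (hg v hv) hgy (by
      have := hsm y hy hyR
      linarith)
    obtain ⟨ν', hν', hν2⟩ := ch_co hgy h1
    have hz : f + w y = μ • (g v + W g v y) := by rw [hf, hw, smul_add]
    have hz2 : nz (f + w y) = μ • ν' • g (ch v y) := by
      rw [← hν2]
      unfold ch nz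
      rw [hz, norm_smul, hμ, one_mul, smul_comm]
      rfl
    have hpm : pm (g (ch v y)) = pm (nz (f + w y)) := by rw [hz2, pm_smul hμ, pm_smul hν']
    have hwKf : w y ∈ K f := mem_K.2 (hwK y)
    rw [pr_congr hpm, pr_nz (add_ne hf1 hwKf), norm_sq_add hf1 hwKf]
  refine ⟨L, fun h hh => ?_⟩
  obtain ⟨a, ha⟩ : ∃ a : ℂ, a = inner ℂ v h := ⟨_, rfl⟩
  have har : ‖a‖ ≤ r := by
    have := norm_inner_le_norm (𝕜 := ℂ) v h
    rw [hv, one_mul, ← ha] at this
    exact this.trans hh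
  have h1a : 1 / 2 ≤ ‖1 + a‖ := by
    have := norm_sub_norm_le (1 : ℂ) (-a)
    rw [norm_one, norm_neg, sub_neg_eq_add] at this
    linarith
  have h1a0 : (1 + a : ℂ) ≠ 0 := fun h0 => by rw [h0, norm_zero] at h1a; linarith
  obtain ⟨y, hy⟩ : ∃ y : V n, y = (1 + a)⁻¹ • (h - a • v) := ⟨_, rfl⟩
  have hyK : y ∈ K v := by
    rw [mem_K, hy, inner_smul_right, inner_sub_right, inner_smul_right, inner_self_one hv, mul_one, ← ha, sub_self,
      mul_zero]
  have hyh : (1 + a) • y = h - a • v := by rw [hy, smul_smul, mul_inv_cancel₀ h1a0, one_smul]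
  have hyR : ‖y‖ ≤ R := by
    have e1 : ‖h - a • v‖ ≤ ‖h‖ := by
      have e2 := norm_sub_pr hv h
      have e3 : pr v h = a • v := by unfold pr; rw [ha]
      rw [e3] at e2
      have e4 := sq_nonneg ‖(inner ℂ v h : ℂ)‖
      exact (pow_le_pow_iff_left₀ (norm_nonneg _) (norm_nonneg _) two_ne_zero).1 (by linarith)
    rw [hy, norm_smul, norm_inv, inv_mul_le_iff₀ (by linarith), hR]
    nlinarith
  have hvh : v + h = (1 + a) • (v + y) := by rw [smul_add, hyh, add_smul, one_smul]; abel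
  -- the values of the lift
  have hva : lft g (v + h) = pr (g (ch v y)) (v + h) := by
    unfold lft
    refine pr_congr (hph _ _ ?_ (ch_unit hv hyK) ?_) _
    · rw [hvh]
      exact nz_unit (smul_ne_zero h1a0 (add_ne hv hyK))
    · have e1 : nz (v + h) = (((‖(1 + a : ℂ)‖⁻¹ : ℝ) : ℂ) * (1 + a)) • ch v y := by
        rw [hvh]
        unfold ch nz
        rw [norm_smul, smul_smul, smul_smul]
        congr 1
        rw [mul_inv]
        push_cast
        ring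
      have e2 : ‖((‖(1 + a : ℂ)‖⁻¹ : ℝ) : ℂ) * (1 + a)‖ = 1 := by
        rw [norm_mul, Complex.norm_real, norm_inv, norm_norm, inv_mul_cancel₀ (by linarith)]
      rw [e1, dd_smul_left e2, dd_self]
  have hvv : lft g v = (c : ℂ) • f := by
    have e1 := hlft 0 (Submodule.zero_mem _) (by rw [norm_zero]; exact hR0.le) v
    rw [ch_zero hv, hw0, norm_zero, add_zero, hfv] at e1
    have e2 : nz v = v := by unfold nz; rw [hv]; simp
    unfold lft
    rw [e2, e1]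
    simp
  obtain ⟨Q, hQ⟩ : ∃ Q : ℂ, Q = ((1 + ‖w y‖ ^ 2)⁻¹ : ℝ) * inner ℂ (f + w y) (v + h) := ⟨_, rfl⟩
  have hvh2 : lft g (v + h) = Q • (f + w y) := by rw [hva, hlft y hyK hyR, hQ]
  obtain ⟨Z, hZ⟩ : ∃ Z : V n, Z = lft g (v + h) - lft g v := ⟨_, rfl⟩
  have hZ2 : Z = (Q - c) • f + Q • w y := by rw [hZ, hvh2, hvv]; module
  have hfZ : (inner ℂ f Z : ℂ) = Q - c := by
    rw [hZ2, inner_add_right, inner_smul_right, inner_smul_right, inner_self_one hf1, hwK]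
    ring
  have hPZ : Z - (inner ℂ f Z : ℂ) • f = Q • w y := by rw [hfZ, hZ2]; abel
  rw [← hZ, hLa, hPZ, hfZ]
  obtain ⟨s, hs⟩ : ∃ s : ℂ, s = (Q - c) - (c : ℂ)⁻¹ * inner ℂ (Q • w y) v - a := ⟨_, rfl⟩
  have hdec : L' (Q • w y) + ((Q - c) - (c : ℂ)⁻¹ * inner ℂ (Q • w y) v) • v - h =
      (L' (w y) - y) + L' ((Q - 1) • w y) + (-(a • y)) + s • v := by
    have e1 : Q • w y = w y + (Q - 1) • w y := by module
    have e2 : h = a • v + (y + a • y) := by
      have : (1 + a) • y = y + a • y := by rw [add_smul, one_smul]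
      rw [← this, hyh]
      abel
    have e3 : L' (Q • w y) = L' (w y) + L' ((Q - 1) • w y) := by
      rw [← map_add, ← e1]
    rw [e3, hs]
    rw [e2]
    module
  -- the size of `Q`
  obtain ⟨ω, hωd⟩ : ∃ ω : ℝ, ω = ‖w y‖ := ⟨_, rfl⟩
  have hω0 : 0 ≤ ω := by rw [hωd]; exact norm_nonneg _
  have hωt : ω ≤ t := by rw [hωd, hwn]; exact hω y hyK hyR
  have hωB : ω ^ 2 ≤ t * r := by rw [hωd, hwn]; exact hB y hyK hyR
  have hrt8 : r ≤ 1 / 8 := by linarith
  have hQn : ‖Q‖ ≤ 2 := by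
    rw [hQ, norm_mul, Complex.norm_real, norm_inv, ← hωd]
    have e1 : ‖(inner ℂ (f + w y) (v + h) : ℂ)‖ ≤ (1 + ω) * (1 + r) := by
      refine (norm_inner_le_norm _ _).trans (mul_le_mul ?_ ?_ (norm_nonneg _) (by linarith))
      · exact (norm_add_le _ _).trans (by rw [hf1, ← hωd])
      · exact (norm_add_le _ _).trans (by rw [hv]; linarith)
    have e2 : ‖1 + ω ^ 2‖⁻¹ ≤ 1 := by
      rw [Real.norm_of_nonneg (by positivity)]
      exact inv_le_one_of_one_le₀ (by nlinarith)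
    calc ‖1 + ω ^ 2‖⁻¹ * ‖(inner ℂ (f + w y) (v + h) : ℂ)‖ ≤ 1 * ((1 + ω) * (1 + r)) :=
          mul_le_mul e2 e1 (norm_nonneg _) zero_le_one
      _ ≤ 2 := by nlinarith
  have hQ2 : Q - c = inner ℂ f h + inner ℂ (w y) v + inner ℂ (w y) h - Q * ((ω ^ 2 : ℝ) : ℂ) := by
    have e1 : Q * ((1 + ω ^ 2 : ℝ) : ℂ) = inner ℂ (f + w y) (v + h) := by
      rw [hQ, ← hωd]
      have e2 : ((1 + ω ^ 2 : ℝ) : ℂ) ≠ 0 := by
        rw [Complex.ofReal_ne_zero]
        positivity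
      rw [Complex.ofReal_inv]
      field_simp
    rw [inner_add_left, inner_add_right, inner_add_right, hfv] at e1
    have e3 : Q * ((1 + ω ^ 2 : ℝ) : ℂ) = Q + Q * ((ω ^ 2 : ℝ) : ℂ) := by push_cast; ring
    rw [e3] at e1
    linear_combination e1
  have b1 : ‖(inner ℂ f h : ℂ)‖ ≤ r := by
    have := norm_inner_le_norm (𝕜 := ℂ) f h
    rw [hf1, one_mul] at this
    exact this.trans hh
  have b2 : ‖(inner ℂ (w y) v : ℂ)‖ ≤ ω := by
    have := norm_inner_le_norm (𝕜 := ℂ) (w y) v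
    rwa [hv, mul_one, ← hωd] at this
  have b3 : ‖(inner ℂ (w y) h : ℂ)‖ ≤ ω * r := by
    have := norm_inner_le_norm (𝕜 := ℂ) (w y) h
    rw [← hωd] at this
    exact this.trans (mul_le_mul_of_nonneg_left hh hω0)
  have b4 : ‖Q * ((ω ^ 2 : ℝ) : ℂ)‖ ≤ 2 * ω ^ 2 := by
    rw [norm_mul, Complex.norm_real, Real.norm_of_nonneg (by positivity)]
    exact mul_le_mul_of_nonneg_right hQn (by positivity)
  have hQc : ‖Q - c‖ ≤ r + 2 * ω := by
    rw [hQ2]
    refine (norm_sub_le _ _).trans ((add_le_add (norm_add₃_le) b4).trans ?_)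
    nlinarith
  have hQ1 : ‖Q - 1‖ ≤ 4 * t := by
    have e1 : Q - 1 = (Q - c) - ((1 - c : ℝ) : ℂ) := by push_cast; ring
    rw [e1]
    refine (norm_sub_le _ _).trans ?_
    rw [Complex.norm_real, Real.norm_of_nonneg (by linarith)]
    linarith
  have hsb : ‖s‖ ≤ 11 * t * r := by
    have hcC : (c : ℂ) ≠ 0 := by
      rw [Complex.ofReal_ne_zero]
      linarith
    have e1 : s = inner ℂ (f - v) h + inner ℂ (w y) v * ((c : ℂ)⁻¹ * (starRingEnd ℂ) (c - Q)) + inner ℂ (w y) h -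
        Q * ((ω ^ 2 : ℝ) : ℂ) := by
      rw [hs, hQ2, inner_smul_left, inner_sub_left, ← ha, map_sub, Complex.conj_ofReal]
      field_simp
      ring
    have e2 : ‖(inner ℂ (f - v) h : ℂ)‖ ≤ 2 * t * r :=
      (norm_inner_le_norm _ _).trans (mul_le_mul hfv2 hh (norm_nonneg _) (by positivity))
    have e3 : ‖inner ℂ (w y) v * ((c : ℂ)⁻¹ * (starRingEnd ℂ) (c - Q))‖ ≤ ω * (2 * (r + 2 * ω)) := by
      rw [norm_mul, norm_mul, norm_inv, Complex.norm_real, Real.norm_of_nonneg hc0, RCLike.norm_conj,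
        norm_sub_rev]
      refine mul_le_mul b2 (mul_le_mul ?_ hQc (norm_nonneg _) (by norm_num)) (by positivity) hω0
      rw [inv_le_comm₀ (by linarith) (by norm_num)]
      linarith
    rw [e1]
    refine (norm_sub_le _ _).trans ((add_le_add (norm_add₃_le.trans (add_le_add_three e2 e3 b3)) b4).trans ?_)
    nlinarith
  have hr0 := hr.le
  have f1 := hL1 y hyK hyR
  have f2 : ‖L' ((Q - 1) • w y)‖ ≤ 2 * n * (16 * t * R) := by
    refine (hL2 _).trans ?_
    have hn0 : (0 : ℝ) ≤ n := Nat.cast_nonneg n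
    refine mul_le_mul_of_nonneg_left ?_ (by positivity)
    rw [norm_smul]
    calc 2 * κ * (‖Q - 1‖ * ‖w y‖) = 2 * ‖Q - 1‖ * (κ * ‖w y‖) := by ring
      _ ≤ 2 * (4 * t) * (2 * R) := by
          refine mul_le_mul ?_ (hκw2 y hyK hyR) (by positivity) (by positivity)
          linarith
      _ = 16 * t * R := by ring
  have f3 : ‖-(a • y)‖ ≤ 2 * t * r := by
    rw [norm_neg, norm_smul]
    calc ‖a‖ * ‖y‖ ≤ r * R := mul_le_mul har hyR (norm_nonneg _) hr0
      _ ≤ 2 * t * r := by rw [hR]; nlinarith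
  have f4 : ‖s • v‖ ≤ 11 * t * r := by rw [norm_smul, hv, mul_one]; exact hsb
  rw [hdec]
  refine (norm_add_le _ _).trans ((add_le_add (norm_add₃_le.trans (add_le_add_three f1 f2 f3)) f4).trans ?_)
  rw [hR]
  have hn0 : (0 : ℝ) ≤ n := Nat.cast_nonneg n
  have g1 : 0 ≤ (n : ℝ) * (t * r) := by positivity
  have g2 : 0 ≤ t * r := by positivity
  calc 2 * n * (8 * t * (2 * r)) + 2 * n * (16 * t * (2 * r)) + 2 * t * r + 11 * t * r =
        96 * (n * (t * r)) + 13 * (t * r) := by ring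
    _ ≤ (100 * (2 * n + 1) * t) * r := by nlinarith
    _ ≤ ε * r := mul_le_mul_of_nonneg_right ht hr0

end Pool.Agent.H33.QS
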