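import Pool.Agent.H13.Wig.Main
import Pool.Agent.H33.NC.Near

/-!
# The distance of lines
-/

set_option autoImplicit false

open Set Filter Topology Metric

noncomputable section

namespace Pool.Agent.H33.QS

open Pool.Agent.H13.Wig (V inner_def inner_le_one norm_sub_sq_c exists_phase exists_close one_sub_le nz nz_unit)

variable {n : ℕ}

/-- matrices, as vectors -/
abbrev Y (n : ℕ) : Type := EuclideanSpace ℂ (Fin (n + 1) × Fin (n + 1))

/-- the projection onto the line of a unit vector, divided by `√2` -/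
def pm (a : V n) : Y n := WithLp.toLp 2 fun p => (((√2)⁻¹ : ℝ) : ℂ) * (a p.1 * (starRingEnd ℂ) (a p.2))

lemma pm_apply (a : V n) (p : Fin (n + 1) × Fin (n + 1)) :
    pm a p = (((√2)⁻¹ : ℝ) : ℂ) * (a p.1 * (starRingEnd ℂ) (a p.2)) := rfl

lemma inner_pm (a b : V n) : (inner ℂ (pm a) (pm b) : ℂ) = ((‖(inner ℂ a b : ℂ)‖ ^ 2 / 2 : ℝ) : ℂ) := by
  have h1 : (inner ℂ (pm a) (pm b) : ℂ) = ∑ p : Fin (n + 1) × Fin (n + 1),
      (starRingEnd ℂ) (pm a p) * pm b p := by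
    rw [PiLp.inner_apply]
    refine Finset.sum_congr rfl fun i _ => ?_
    rw [RCLike.inner_apply, mul_comm]
  have h2 : (((√2)⁻¹ : ℝ) : ℂ) * (((√2)⁻¹ : ℝ) : ℂ) = ((1 / 2 : ℝ) : ℂ) := by
    rw [← Complex.ofReal_mul]
    congr 1
    have : √2 * √2 = (2 : ℝ) := Real.mul_self_sqrt (by norm_num)
    field_simp
    linarith
  rw [h1]
  simp only [pm_apply, map_mul, Complex.conj_ofReal, Complex.conj_conj]
  have h3 : ∀ p : Fin (n + 1) × Fin (n + 1), ((((√2)⁻¹ : ℝ) : ℂ) * ((starRingEnd ℂ) (a p.1) * a p.2)) *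
      ((((√2)⁻¹ : ℝ) : ℂ) * (b p.1 * (starRingEnd ℂ) (b p.2))) =
      ((1 / 2 : ℝ) : ℂ) * (((starRingEnd ℂ) (a p.1) * b p.1) * ((starRingEnd ℂ) (b p.2) * a p.2)) := by
    intro p
    rw [← h2]
    ring
  rw [Finset.sum_congr rfl fun p _ => h3 p, ← Finset.mul_sum, ← Finset.univ_product_univ,
    Finset.sum_product]
  dsimp only
  rw [← Finset.sum_mul_sum, ← inner_def, ← inner_def]
  have h4 : (inner ℂ a b : ℂ) * inner ℂ b a = ((‖(inner ℂ a b : ℂ)‖ ^ 2 : ℝ) : ℂ) := by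
    rw [← inner_conj_symm b a, Complex.mul_conj, Complex.normSq_eq_norm_sq]
  rw [h4]
  push_cast
  ring

/-- the distance of the lines of two unit vectors -/
def dd (a b : V n) : ℝ := ‖pm a - pm b‖

lemma dd_sq {a b : V n} (ha : ‖a‖ = 1) (hb : ‖b‖ = 1) : dd a b ^ 2 = 1 - ‖(inner ℂ a b : ℂ)‖ ^ 2 := by
  have h0 : ∀ a : V n, ‖a‖ = 1 → ‖pm a‖ ^ 2 = 1 / 2 := by
    intro a ha
    have h1 := inner_pm a a
    rw [inner_self_eq_norm_sq_to_K, inner_self_eq_norm_sq_to_K, ha] at h1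
    have h2 : ((‖pm a‖ ^ 2 : ℝ) : ℂ) = ((1 / 2 : ℝ) : ℂ) := by
      push_cast
      push_cast at h1
      rw [show ((‖pm a‖ : ℂ)) ^ 2 = _ from h1]
      norm_num
    exact_mod_cast Complex.ofReal_injective h2
  unfold dd
  have h3 : ‖pm a - pm b‖ ^ 2 = ‖pm a‖ ^ 2 - 2 * (inner ℂ (pm a) (pm b) : ℂ).re + ‖pm b‖ ^ 2 := by
    have := norm_sub_sq (𝕜 := ℂ) (pm a) (pm b)
    simpa using this
  rw [h3, h0 a ha, h0 b hb, inner_pm, Complex.ofReal_re]
  ring

lemma dd_nonneg (a b : V n) : 0 ≤ dd a b := norm_nonneg _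

lemma dd_comm (a b : V n) : dd a b = dd b a := norm_sub_rev _ _

lemma dd_self (a : V n) : dd a a = 0 := by unfold dd; rw [sub_self, norm_zero]

lemma dd_tri (a b c : V n) : dd a c ≤ dd a b + dd b c := norm_sub_le_norm_sub_add_norm_sub _ _ _

lemma dd_le_one {a b : V n} (ha : ‖a‖ = 1) (hb : ‖b‖ = 1) : dd a b ≤ 1 := by
  have h := dd_sq ha hb
  have h1 := sq_nonneg ‖(inner ℂ a b : ℂ)‖
  have h2 := dd_nonneg a b
  nlinarith

lemma dd_le {a b : V n} (ha : ‖a‖ = 1) (hb : ‖b‖ = 1) : dd a b ≤ ‖a - b‖ := by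
  have h := dd_sq ha hb
  have h1 := one_sub_le ha hb
  rw [← h] at h1
  exact (pow_le_pow_iff_left₀ (dd_nonneg _ _) (norm_nonneg _) two_ne_zero).1 h1

lemma pm_smul {a : V n} {c : ℂ} (hc : ‖c‖ = 1) : pm (c • a) = pm a := by
  ext p
  rw [pm_apply, pm_apply]
  congr 1
  show c * a p.1 * (starRingEnd ℂ) (c * a p.2) = _
  rw [map_mul]
  have h : c * (starRingEnd ℂ) c = 1 := by
    rw [Complex.mul_conj, Complex.normSq_eq_norm_sq, hc]
    norm_num
  calc c * a p.1 * ((starRingEnd ℂ) c * (starRingEnd ℂ) (a p.2)) =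
        (c * (starRingEnd ℂ) c) * (a p.1 * (starRingEnd ℂ) (a p.2)) := by ring
    _ = _ := by rw [h, one_mul]

lemma dd_smul_left {a b : V n} {c : ℂ} (hc : ‖c‖ = 1) : dd (c • a) b = dd a b := by
  unfold dd; rw [pm_smul hc]

lemma dd_smul_right {a b : V n} {c : ℂ} (hc : ‖c‖ = 1) : dd a (c • b) = dd a b := by
  unfold dd; rw [pm_smul hc]

lemma exists_phase_close {x y : V n} (hx : ‖x‖ = 1) (hy : ‖y‖ = 1) :
    ∃ μ : ℂ, ‖μ‖ = 1 ∧ ‖x - μ • y‖ ≤ √2 * dd x y := by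
  obtain ⟨μ, hμ, h⟩ := exists_close hx hy
  refine ⟨μ, hμ, ?_⟩
  rw [← dd_sq hx hy] at h
  refine (pow_le_pow_iff_left₀ (norm_nonneg _) (by have := dd_nonneg x y; positivity) two_ne_zero).1 ?_
  rw [mul_pow, Real.sq_sqrt (by norm_num)]
  exact h

/-- unit vectors orthogonal to two given vectors -/
lemma exists_orth2 (hn : 2 ≤ n) (a b : V n) :
    ∃ w : V n, ‖w‖ = 1 ∧ (inner ℂ a w : ℂ) = 0 ∧ (inner ℂ b w : ℂ) = 0 := by
  classical
  obtain ⟨K, hK⟩ : ∃ K : Submodule ℂ (V n), K = Submodule.span ℂ (({a, b} : Finset (V n)) : Set (V n)) := ⟨_, rfl⟩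
  have h1 : Module.finrank ℂ K ≤ 2 := by
    rw [hK]
    exact (finrank_span_finset_le_card _).trans Finset.card_le_two
  have h2 := K.finrank_add_finrank_orthogonal
  rw [finrank_euclideanSpace_fin] at h2
  have h3 : 0 < Module.finrank ℂ Kᗮ := by omega
  have : Nontrivial Kᗮ := Module.finrank_pos_iff.1 h3
  obtain ⟨⟨w, hw⟩, hw0⟩ := exists_ne (0 : Kᗮ)
  have hw1 : w ≠ 0 := fun h => hw0 (Subtype.ext h)
  have hwn : 0 < ‖w‖ := norm_pos_iff.2 hw1
  have ha : a ∈ K := by rw [hK]; exact Submodule.subset_span (by simp)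
  have hb : b ∈ K := by rw [hK]; exact Submodule.subset_span (by simp)
  refine ⟨nz w, nz_unit hw1, ?_, ?_⟩
  · unfold nz
    rw [inner_smul_right, (Submodule.mem_orthogonal K w).1 hw a ha, mul_zero]
  · unfold nz
    rw [inner_smul_right, (Submodule.mem_orthogonal K w).1 hw b hb, mul_zero]

/-- a line at the given distance from `a` through which the geodesic from `a` to `c` passes -/
lemma exists_move {a c : V n} (ha : ‖a‖ = 1) (hc : ‖c‖ = 1) {d : ℝ} (hd0 : 0 ≤ d) (hd : d ≤ 1 / 2)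
    (hac : dd a c ≤ 1 / 2) (hn : 1 ≤ n) :
    ∃ c' : V n, ‖c'‖ = 1 ∧ dd a c' = d ∧ dd c c' ≤ 2 * |dd a c - d| := by
  -- normalize the phase of `c`
  obtain ⟨μ, hμ, h⟩ := exists_phase (inner ℂ a c : ℂ)
  obtain ⟨z, hz⟩ : ∃ z : V n, z = μ • c := ⟨_, rfl⟩
  have hz1 : ‖z‖ = 1 := by rw [hz, norm_smul, hμ, hc, mul_one]
  have hzc : ∀ x : V n, dd c x = dd z x := fun x => by rw [hz, dd_smul_left hμ]
  have hacz : dd a c = dd a z := by rw [dd_comm, hzc, dd_comm]
  have hin : (inner ℂ a z : ℂ) = ((‖(inner ℂ a c : ℂ)‖ : ℝ) : ℂ) := by rw [hz, inner_smul_right, h]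
  obtain ⟨s, hs⟩ : ∃ s : ℝ, s = ‖(inner ℂ a c : ℂ)‖ := ⟨_, rfl⟩
  rw [← hs] at hin
  have hs0 : 0 ≤ s := by rw [hs]; exact norm_nonneg _
  obtain ⟨t, ht⟩ : ∃ t : ℝ, t = dd a c := ⟨_, rfl⟩
  rw [← ht] at hac ⊢
  have ht0 : 0 ≤ t := by rw [ht]; exact dd_nonneg _ _
  have hst : t ^ 2 = 1 - s ^ 2 := by rw [ht, hs]; exact dd_sq ha hc
  -- the direction
  obtain ⟨u, hu, hau, hzu⟩ : ∃ u : V n, ‖u‖ = 1 ∧ (inner ℂ a u : ℂ) = 0 ∧ z = (s : ℂ) • a + (t : ℂ) • u := by
    have haa : (inner ℂ a a : ℂ) = 1 := by rw [inner_self_eq_norm_sq_to_K, ha]; simp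
    have h3 : (inner ℂ a (z - (s : ℂ) • a) : ℂ) = 0 := by
      rw [inner_sub_right, inner_smul_right, haa, hin, mul_one, sub_self]
    have h4 : ‖z - (s : ℂ) • a‖ ^ 2 = t ^ 2 := by
      have hza : (inner ℂ z a : ℂ) = (s : ℂ) := by
        rw [← inner_conj_symm, hin, Complex.conj_ofReal]
      rw [norm_sub_sq_c, inner_smul_right, hza, norm_smul, hz1, ha, hst, Complex.norm_real, mul_one,
        Real.norm_eq_abs, sq_abs, ← Complex.ofReal_mul, Complex.ofReal_re]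
      ring
    have h5 : ‖z - (s : ℂ) • a‖ = t := (pow_left_inj₀ (norm_nonneg _) ht0 two_ne_zero).1 h4
    rcases ht0.eq_or_lt with h6 | h6
    · rw [← h6, norm_eq_zero] at h5
      have : Nontrivial (V n) := by
        refine ⟨⟨a, 0, fun h => ?_⟩⟩
        rw [h, norm_zero] at ha
        exact zero_ne_one ha
      -- any unit vector orthogonal to `a`
      obtain ⟨K, hK⟩ : ∃ K : Submodule ℂ (V n), K = Submodule.span ℂ ({a} : Set (V n)) := ⟨_, rfl⟩
      have h7 : Module.finrank ℂ K ≤ 1 := by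
        rw [hK]
        refine (finrank_span_singleton (K := ℂ) (v := a) fun h => ?_).le
        rw [h, norm_zero] at ha
        exact zero_ne_one ha
      have h8 := K.finrank_add_finrank_orthogonal
      rw [finrank_euclideanSpace_fin] at h8
      have h9 : 0 < Module.finrank ℂ Kᗮ := by omega
      have : Nontrivial Kᗮ := Module.finrank_pos_iff.1 h9
      obtain ⟨⟨w, hw⟩, hw0⟩ := exists_ne (0 : Kᗮ)
      have hw1 : w ≠ 0 := fun h => hw0 (Subtype.ext h)
      have haK : a ∈ K := by rw [hK]; exact Submodule.subset_span (by simp)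
      refine ⟨nz w, nz_unit hw1, ?_, ?_⟩
      · unfold nz
        rw [inner_smul_right, (Submodule.mem_orthogonal K w).1 hw a haK, mul_zero]
      · rw [← h6, Complex.ofReal_zero, zero_smul, add_zero]
        exact sub_eq_zero.1 h5
    · refine ⟨((t⁻¹ : ℝ) : ℂ) • (z - (s : ℂ) • a), ?_, ?_, ?_⟩
      · rw [norm_smul, Complex.norm_real, norm_inv, h5, Real.norm_of_nonneg ht0, inv_mul_cancel₀ h6.ne']
      · rw [inner_smul_right, h3, mul_zero]
      · rw [smul_smul, ← Complex.ofReal_mul, mul_inv_cancel₀ h6.ne', Complex.ofReal_one, one_smul]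
        abel
  have haa : (inner ℂ a a : ℂ) = 1 := by rw [inner_self_eq_norm_sq_to_K, ha]; simp
  have huu : (inner ℂ u u : ℂ) = 1 := by rw [inner_self_eq_norm_sq_to_K, hu]; simp
  have hua : (inner ℂ u a : ℂ) = 0 := by rw [← inner_conj_symm, hau, map_zero]
  have hgen : ∀ x y : ℝ, ‖(x : ℂ) • a + (y : ℂ) • u‖ ^ 2 = x ^ 2 + y ^ 2 := by
    intro x y
    have h1 : (inner ℂ ((x : ℂ) • a + (y : ℂ) • u) ((x : ℂ) • a + (y : ℂ) • u) : ℂ) = ((x ^ 2 + y ^ 2 : ℝ) : ℂ) := by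
      simp only [inner_add_left, inner_add_right, inner_smul_left, inner_smul_right, haa, huu, hau, hua,
        Complex.conj_ofReal]
      push_cast
      ring
    rw [inner_self_eq_norm_sq_to_K] at h1
    have h2 : ((‖(x : ℂ) • a + (y : ℂ) • u‖ ^ 2 : ℝ) : ℂ) = ((x ^ 2 + y ^ 2 : ℝ) : ℂ) := by
      rw [← h1, Complex.ofReal_pow]
      rfl
    exact Complex.ofReal_injective h2
  obtain ⟨e, he⟩ : ∃ e : ℝ, e = √(1 - d ^ 2) := ⟨_, rfl⟩
  have hd2 : d ^ 2 ≤ 1 / 4 := by nlinarith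
  have he2 : e ^ 2 = 1 - d ^ 2 := by rw [he, Real.sq_sqrt (by linarith)]
  have he0 : 0 ≤ e := by rw [he]; exact Real.sqrt_nonneg _
  obtain ⟨c', hc'⟩ : ∃ c' : V n, c' = (e : ℂ) • a + (d : ℂ) • u := ⟨_, rfl⟩
  have hc'1 : ‖c'‖ = 1 := by
    have h1 : ‖c'‖ ^ 2 = 1 ^ 2 := by rw [hc', hgen, he2]; ring
    exact (pow_left_inj₀ (norm_nonneg _) zero_le_one two_ne_zero).1 h1
  refine ⟨c', hc'1, ?_, ?_⟩
  · have h1 : dd a c' ^ 2 = d ^ 2 := by
      rw [dd_sq ha hc'1, hc', inner_add_right, inner_smul_right, inner_smul_right, haa, hau, mul_one, mul_zero,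
        add_zero, Complex.norm_real, Real.norm_eq_abs, sq_abs, he2]
      ring
    exact (pow_left_inj₀ (dd_nonneg _ _) hd0 two_ne_zero).1 h1
  · rw [hzc]
    have h1 : (inner ℂ z c' : ℂ) = ((s * e + t * d : ℝ) : ℂ) := by
      rw [hzu, hc']
      simp only [inner_add_left, inner_add_right, inner_smul_left, inner_smul_right, haa, huu, hau, hua,
        Complex.conj_ofReal]
      push_cast
      ring
    have h2 : dd z c' ^ 2 = (t * e - s * d) ^ 2 := by
      rw [dd_sq hz1 hc'1, h1, Complex.norm_real, Real.norm_eq_abs, sq_abs]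
      nlinarith
    have hs34 : 3 / 4 ≤ s ^ 2 := by nlinarith
    have hs1 : s ≤ 1 := by nlinarith
    have he1 : e ≤ 1 := by nlinarith
    have hs2 : 1 / 2 ≤ s := by nlinarith
    have he3 : 1 / 2 ≤ e := by nlinarith
    have h3 : dd z c' = |t * e - s * d| := by
      rw [← sq_eq_sq₀ (dd_nonneg _ _) (abs_nonneg _), sq_abs]
      exact h2
    rw [h3]
    -- `t e - s d = (t - d) e + d (e - s)` and `(e - s) (e + s) = (t - d) (t + d)`
    have h4 : (e - s) * (e + s) = (t - d) * (t + d) := by nlinarith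
    have h5 : |e - s| ≤ |t - d| := by
      have h6 : |e - s| * (e + s) = |t - d| * (t + d) := by
        have := congrArg abs h4
        rwa [abs_mul, abs_mul, abs_of_nonneg (by linarith : 0 ≤ e + s), abs_of_nonneg (by linarith : 0 ≤ t + d)]
          at this
      have h7 : |e - s| * (e + s) ≤ |t - d| * (e + s) := by
        rw [h6]
        exact mul_le_mul_of_nonneg_left (by linarith) (abs_nonneg _)
      exact le_of_mul_le_mul_right h7 (by linarith)
    have h8 : t * e - s * d = (t - d) * e + d * (e - s) := by ring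
    rw [h8]
    calc |(t - d) * e + d * (e - s)| ≤ |(t - d) * e| + |d * (e - s)| := abs_add_le _ _
      _ = |t - d| * e + d * |e - s| := by rw [abs_mul, abs_mul, abs_of_nonneg he0, abs_of_nonneg hd0]
      _ ≤ |t - d| * 1 + (1 / 2) * |t - d| := by
          refine add_le_add (mul_le_mul_of_nonneg_left he1 (abs_nonneg _)) ?_
          exact mul_le_mul hd h5 (abs_nonneg _) (by norm_num)
      _ ≤ 2 * |t - d| := by linarith [abs_nonneg (t - d)]

end Pool.Agent.H33.QS
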