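import Pool.Agent.H33.QS.Dist

/-!
# Equicontinuity of weakly quasisymmetric maps
-/

set_option autoImplicit false

open Set Filter Topology Metric

noncomputable section

namespace Pool.Agent.H33.QS

open Pool.Agent.H13.Wig (V inner_def inner_le_one norm_sub_sq_c exists_phase exists_close one_sub_le nz nz_unit)

variable {n : ℕ}

/-- a packing bound -/
lemma packing {Z : Type*} [NormedAddCommGroup Z] [ProperSpace Z] {R ρ : ℝ} (hρ : 0 < ρ) :
    ∃ K : ℕ, 0 < K ∧ ∀ x : ℕ → Z, (∀ i ≤ K, ‖x i‖ ≤ R) → ∃ i j : ℕ, i < j ∧ j ≤ K ∧ ‖x i - x j‖ < ρ := by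
  obtain ⟨t, -, ht2, ht3⟩ := (isCompact_closedBall (0 : Z) R).finite_cover_balls (e := ρ / 2) (by linarith)
  obtain ⟨s, hs⟩ : ∃ s : Finset Z, s = ht2.toFinset := ⟨_, rfl⟩
  refine ⟨s.card + 1, by omega, fun x hx => ?_⟩
  have h1 : ∀ i : ℕ, i ≤ s.card + 1 → ∃ y ∈ s, ‖x i - y‖ < ρ / 2 := by
    intro i hi
    have h2 : x i ∈ ⋃ y ∈ t, ball y (ρ / 2) := ht3 (by rw [mem_closedBall_zero_iff]; exact hx i hi)
    rw [mem_iUnion₂] at h2
    obtain ⟨y, hy, hxy⟩ := h2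
    rw [mem_ball, dist_eq_norm] at hxy
    exact ⟨y, by rw [hs, Set.Finite.mem_toFinset]; exact hy, hxy⟩
  choose! y hy1 hy2 using h1
  obtain ⟨i, hi, j, hj, hij, hyij⟩ := Finset.exists_ne_map_eq_of_card_lt_of_maps_to
    (s := Finset.range (s.card + 2)) (t := s) (f := y) (by rw [Finset.card_range]; omega)
    (fun i hi => by
      have := Finset.mem_range.1 (Finset.mem_coe.1 hi)
      exact hy1 i (by omega))
  rw [Finset.mem_range] at hi hj
  have h3 : ‖x i - x j‖ < ρ := by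
    have e1 : x i - x j = (x i - y i) - (x j - y j) := by rw [hyij]; abel
    rw [e1]
    have a1 := hy2 i (by omega)
    have a2 := hy2 j (by omega)
    have a3 := norm_sub_le (x i - y i) (x j - y j)
    linarith
  rcases lt_or_gt_of_ne hij with h | h
  · exact ⟨i, j, h, by omega, h3⟩
  · exact ⟨j, i, h, by omega, by rw [norm_sub_rev]; exact h3⟩

/-- `G` is weakly quasisymmetric with the constant `H` -/
def WQ {Z : Type*} [NormedAddCommGroup Z] (H : ℝ) (G : V n → Z) : Prop :=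
  ∀ p q r : V n, ‖p‖ = 1 → ‖q‖ = 1 → ‖r‖ = 1 → dd p q ≤ dd p r → ‖G p - G q‖ ≤ H * ‖G p - G r‖

lemma WQ.mono {Z : Type*} [NormedAddCommGroup Z] {H H' : ℝ} {G : V n → Z} (h : WQ H G) (hH : H ≤ H') : WQ H' G :=
  fun p q r hp hq hr h1 => (h p q r hp hq hr h1).trans (mul_le_mul_of_nonneg_right hH (norm_nonneg _))

/-- points on a geodesic -/
lemma exists_geod (hn : 2 ≤ n) {p : V n} (hp : ‖p‖ = 1) : ∃ X : ℝ → V n, X 0 = p ∧ (∀ θ, ‖X θ‖ = 1) ∧
    ∀ θ θ', dd (X θ) (X θ') = |Real.sin (θ - θ')| := by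
  obtain ⟨u, hu, hpu, -⟩ := exists_orth2 hn p p
  have haa : (inner ℂ p p : ℂ) = 1 := by rw [inner_self_eq_norm_sq_to_K, hp]; simp
  have huu : (inner ℂ u u : ℂ) = 1 := by rw [inner_self_eq_norm_sq_to_K, hu]; simp
  have hup : (inner ℂ u p : ℂ) = 0 := by rw [← inner_conj_symm, hpu, map_zero]
  obtain ⟨X, hX⟩ : ∃ X : ℝ → V n, ∀ θ, X θ = ((Real.cos θ : ℝ) : ℂ) • p + ((Real.sin θ : ℝ) : ℂ) • u :=
    ⟨_, fun _ => rfl⟩
  have hin : ∀ θ θ', (inner ℂ (X θ) (X θ') : ℂ) = ((Real.cos (θ - θ') : ℝ) : ℂ) := by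
    intro θ θ'
    rw [hX, hX, Real.cos_sub]
    simp only [inner_add_left, inner_add_right, inner_smul_left, inner_smul_right, haa, huu, hpu, hup,
      Complex.conj_ofReal, Complex.ofReal_add, Complex.ofReal_mul]
    ring
  have h1 : ∀ θ, ‖X θ‖ = 1 := by
    intro θ
    have h2 := hin θ θ
    rw [sub_self, Real.cos_zero, inner_self_eq_norm_sq_to_K] at h2
    have h3 : ((‖X θ‖ ^ 2 : ℝ) : ℂ) = ((1 : ℝ) : ℂ) := by
      rw [← h2, Complex.ofReal_pow]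
      rfl
    have h4 := Complex.ofReal_injective h3
    exact (pow_left_inj₀ (norm_nonneg _) zero_le_one two_ne_zero).1 (by rw [h4]; ring)
  refine ⟨X, ?_, h1, fun θ θ' => ?_⟩
  · rw [hX, Real.cos_zero, Real.sin_zero]
    simp
  · rw [← sq_eq_sq₀ (dd_nonneg _ _) (abs_nonneg _), sq_abs, dd_sq (h1 θ) (h1 θ'), hin, Complex.norm_real,
      Real.norm_eq_abs, sq_abs]
    have := Real.sin_sq_add_cos_sq (θ - θ')
    linarith

/-- **equicontinuity** -/
theorem ec (hn : 2 ≤ n) {η : ℝ} (hη : 0 < η) : ∃ M : ℝ, 1 ≤ M ∧ ∃ H : ℝ, 1 < H ∧ H ≤ 2 ∧ ∀ G : V n → Y n, WQ H G →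
    ∀ p q r : V n, ‖p‖ = 1 → ‖q‖ = 1 → ‖r‖ = 1 → M * dd p q ≤ dd p r → ‖G p - G q‖ ≤ η * ‖G p - G r‖ := by
  obtain ⟨K, hK, hpack⟩ := packing (Z := Y n) (R := 2 * (1 / η)) (ρ := 1 / 4) (by norm_num)
  have hKr : (0 : ℝ) < K := by exact_mod_cast hK
  -- the constant `H`
  obtain ⟨H, hH1, hH2, hH3⟩ : ∃ H : ℝ, 1 < H ∧ H ≤ 2 ∧ H ^ (K + 2) ≤ 2 := by
    have h1 : Tendsto (fun x : ℝ => x ^ (K + 2)) (𝓝 1) (𝓝 (1 ^ (K + 2))) := (continuous_pow (K + 2)).tendsto 1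
    rw [one_pow] at h1
    have h2 : ∀ᶠ x : ℝ in 𝓝[>] 1, x ^ (K + 2) ≤ 2 :=
      nhdsWithin_le_nhds ((h1.eventually (ge_mem_nhds (by norm_num : (1 : ℝ) < 2))))
    have h3 : ∀ᶠ x : ℝ in 𝓝[>] 1, x ≤ 2 :=
      nhdsWithin_le_nhds (ge_mem_nhds (by norm_num : (1 : ℝ) < 2))
    have h4 : ∀ᶠ x : ℝ in 𝓝[>] 1, 1 < x := self_mem_nhdsWithin
    obtain ⟨x, hx1, hx2, hx3⟩ := (h4.and (h3.and h2)).exists
    exact ⟨x, hx1, hx2, hx3⟩
  refine ⟨2 * K, ?_, H, hH1, hH2, fun G hG p q r hp hq hr hpq => ?_⟩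
  · have : (1 : ℝ) ≤ K := by exact_mod_cast hK
    linarith
  by_contra hcon
  push Not at hcon
  obtain ⟨a, ha⟩ : ∃ a : ℝ, a = ‖G p - G q‖ := ⟨_, rfl⟩
  obtain ⟨b, hb⟩ : ∃ b : ℝ, b = ‖G p - G r‖ := ⟨_, rfl⟩
  rw [← ha, ← hb] at hcon
  have hb0 : 0 ≤ b := by rw [hb]; exact norm_nonneg _
  have ha0 : 0 < a := lt_of_le_of_lt (by positivity) hcon
  obtain ⟨X, hX0, hX1, hXd⟩ := exists_geod hn hp
  obtain ⟨s, hs⟩ : ∃ s : ℝ, s = dd p r := ⟨_, rfl⟩
  rw [← hs] at hpq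
  have hs0 : 0 ≤ s := by rw [hs]; exact dd_nonneg _ _
  have hs1 : s ≤ 1 := by rw [hs]; exact dd_le_one hp hr
  obtain ⟨α, hα⟩ : ∃ α : ℝ, α = Real.arcsin s := ⟨_, rfl⟩
  have hα1 : α ≤ Real.pi / 2 := by rw [hα]; exact Real.arcsin_le_pi_div_two s
  have hα0 : 0 ≤ α := by rw [hα]; exact Real.arcsin_nonneg.2 hs0
  have hαs : Real.sin α = s := by rw [hα]; exact Real.sin_arcsin (by linarith) hs1
  have hsα : s ≤ α := by rw [← hαs]; exact Real.sin_le hα0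
  obtain ⟨θ, hθ⟩ : ∃ θ : ℝ, θ = α / K := ⟨_, rfl⟩
  have hθ0 : 0 ≤ θ := by rw [hθ]; positivity
  have hKθ : K * θ = α := by rw [hθ]; field_simp
  have hπ := Real.pi_pos
  have hsin : ∀ i j : ℕ, i ≤ j → j ≤ K → dd (X (i * θ)) (X (j * θ)) = Real.sin (((j : ℝ) - i) * θ) := by
    intro i j hij hj
    have hij' : (i : ℝ) ≤ j := by exact_mod_cast hij
    have hj' : (j : ℝ) ≤ K := by exact_mod_cast hj
    have hi0 : (0 : ℝ) ≤ i := Nat.cast_nonneg i
    rw [hXd]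
    have e1 : (i : ℝ) * θ - j * θ = -(((j : ℝ) - i) * θ) := by ring
    rw [e1, Real.sin_neg, abs_neg, abs_of_nonneg]
    refine Real.sin_nonneg_of_nonneg_of_le_pi (mul_nonneg (by linarith) hθ0) ?_
    have : ((j : ℝ) - i) * θ ≤ K * θ := mul_le_mul_of_nonneg_right (by linarith) hθ0
    linarith
  have hmono : ∀ x y : ℝ, 0 ≤ x → x ≤ y → y ≤ K → Real.sin (x * θ) ≤ Real.sin (y * θ) := by
    intro x y hx hxy hy
    refine Real.sin_le_sin_of_le_of_le_pi_div_two ?_ ?_ (mul_le_mul_of_nonneg_right hxy hθ0)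
    · have : 0 ≤ x * θ := mul_nonneg hx hθ0
      linarith
    · have : y * θ ≤ K * θ := mul_le_mul_of_nonneg_right hy hθ0
      linarith
  have hK1 : (1 : ℝ) ≤ K := by exact_mod_cast hK
  have hstep : dd p q ≤ Real.sin θ := by
    have h1 : 2 / Real.pi * θ ≤ Real.sin θ := Real.mul_le_sin hθ0 (by
      have : θ ≤ K * θ := by nlinarith
      linarith)
    have h2 : 1 / 2 * θ ≤ 2 / Real.pi * θ := by
      refine mul_le_mul_of_nonneg_right ?_ hθ0
      rw [div_le_div_iff₀ (by norm_num) hπ]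
      linarith [Real.pi_le_four]
    have h3 : 2 * K * dd p q ≤ K * θ := by rw [hKθ]; linarith
    have h4 : dd p q ≤ 1 / 2 * θ := by
      have h5 : K * (2 * dd p q) ≤ K * θ := by linarith
      have h6 := le_of_mul_le_mul_left h5 hKr
      linarith
    linarith
  have hH0 : (0 : ℝ) < H := by linarith
  -- the steps
  have hchain : ∀ i : ℕ, i + 1 ≤ K → a ≤ H ^ (i + 1) * ‖G (X (i * θ)) - G (X ((i + 1 : ℕ) * θ))‖ := by
    intro i
    induction i with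
    | zero =>
      intro h1
      have h2 := hG p q (X ((0 + 1 : ℕ) * θ)) hp hq (hX1 _) (by
        have h3 := hsin 0 1 (by omega) h1
        rw [Nat.cast_zero, zero_mul, hX0, Nat.cast_one, sub_zero, one_mul] at h3
        rw [zero_add, Nat.cast_one, one_mul, h3]
        exact hstep)
      rw [← ha] at h2
      simpa [hX0] using h2
    | succ i ih =>
      intro h1
      have h2 := ih (by omega)
      have h3 := hG (X ((i + 1 : ℕ) * θ)) (X (i * θ)) (X ((i + 1 + 1 : ℕ) * θ)) (hX1 _) (hX1 _) (hX1 _) (by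
        rw [dd_comm, hsin i (i + 1) (by omega) (by omega), hsin (i + 1) (i + 1 + 1) (by omega) (by omega)]
        refine le_of_eq ?_
        congr 1
        push_cast
        ring)
      rw [norm_sub_rev (G (X ((i + 1 : ℕ) * θ)))] at h3
      calc a ≤ H ^ (i + 1) * ‖G (X (i * θ)) - G (X ((i + 1 : ℕ) * θ))‖ := h2
        _ ≤ H ^ (i + 1) * (H * ‖G (X ((i + 1 : ℕ) * θ)) - G (X ((i + 1 + 1 : ℕ) * θ))‖) :=
            mul_le_mul_of_nonneg_left h3 (by positivity)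
        _ = _ := by ring
  have hsep : ∀ i j : ℕ, i < j → j ≤ K → a ≤ 2 * ‖G (X (i * θ)) - G (X (j * θ))‖ := by
    intro i j hij hj
    have h1 := hchain i (by omega)
    have h2 := hG (X (i * θ)) (X ((i + 1 : ℕ) * θ)) (X (j * θ)) (hX1 _) (hX1 _) (hX1 _) (by
      rw [hsin i (i + 1) (by omega) (by omega), hsin i j (by omega) hj]
      refine hmono _ _ ?_ ?_ ?_
      · push_cast; linarith
      · have : ((i + 1 : ℕ) : ℝ) ≤ j := by exact_mod_cast hij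
        linarith
      · have h3 : (j : ℝ) ≤ K := by exact_mod_cast hj
        have h4 : (0 : ℝ) ≤ i := Nat.cast_nonneg i
        linarith)
    calc a ≤ H ^ (i + 1) * ‖G (X (i * θ)) - G (X ((i + 1 : ℕ) * θ))‖ := h1
      _ ≤ H ^ (i + 1) * (H * ‖G (X (i * θ)) - G (X (j * θ))‖) := mul_le_mul_of_nonneg_left h2 (by positivity)
      _ = H ^ (i + 2) * ‖G (X (i * θ)) - G (X (j * θ))‖ := by ring
      _ ≤ 2 * ‖G (X (i * θ)) - G (X (j * θ))‖ := by
          refine mul_le_mul_of_nonneg_right ?_ (norm_nonneg _)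
          refine le_trans ?_ hH3
          exact pow_le_pow_right₀ hH1.le (by omega)
  have hup : ∀ j : ℕ, j ≤ K → ‖G p - G (X (j * θ))‖ ≤ 2 * b := by
    intro j hj
    have h1 := hG p (X (j * θ)) r hp (hX1 _) hr (by
      have h2 := hsin 0 j (by omega) hj
      rw [Nat.cast_zero, zero_mul, hX0, sub_zero] at h2
      rw [h2, ← hs, ← hαs, ← hKθ]
      exact hmono _ _ (Nat.cast_nonneg j) (by exact_mod_cast hj) le_rfl)
    rw [← hb] at h1
    exact h1.trans (mul_le_mul_of_nonneg_right hH2 hb0)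
  obtain ⟨i, j, hij, hj, hlt⟩ := hpack (fun i => a⁻¹ • (G p - G (X (i * θ)))) (fun i hi => by
    rw [norm_smul, norm_inv, Real.norm_of_nonneg ha0.le]
    have h1 := hup i hi
    have h2 : b ≤ (1 / η) * a := by
      rw [one_div, ← div_eq_inv_mul, le_div_iff₀ hη]
      linarith
    calc a⁻¹ * ‖G p - G (X (i * θ))‖ ≤ a⁻¹ * (2 * b) := mul_le_mul_of_nonneg_left h1 (by positivity)
      _ ≤ a⁻¹ * (2 * ((1 / η) * a)) := by
          refine mul_le_mul_of_nonneg_left ?_ (by positivity)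
          linarith
      _ = 2 * (1 / η) := by field_simp)
  have h1 := hsep i j hij hj
  have h2 : a⁻¹ • (G p - G (X (i * θ))) - a⁻¹ • (G p - G (X (j * θ))) = -(a⁻¹ • (G (X (i * θ)) - G (X (j * θ)))) := by
    module

  rw [h2, norm_neg, norm_smul, norm_inv, Real.norm_of_nonneg ha0.le] at hlt
  have h3 : a⁻¹ * a ≤ a⁻¹ * (2 * ‖G (X (i * θ)) - G (X (j * θ))‖) := mul_le_mul_of_nonneg_left h1 (by positivity)
  rw [inv_mul_cancel₀ ha0.ne'] at h3
  linarith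

/-- **robustness**: nearly equal distances -/
theorem robust (hn : 2 ≤ n) {ε : ℝ} (hε : 0 < ε) (hε1 : ε ≤ 1) : ∃ θ : ℝ, 0 < θ ∧ ∃ H : ℝ, 1 < H ∧ H ≤ 2 ∧
    ∀ G : V n → Y n, WQ H G → ∀ a b c : V n, ‖a‖ = 1 → ‖b‖ = 1 → ‖c‖ = 1 → dd a b ≤ 1 / 2 → dd a c ≤ 1 / 2 →
      dd a b ≤ (1 + θ) * dd a c → ‖G a - G b‖ ≤ (1 + ε) * ‖G a - G c‖ := by
  obtain ⟨M, hM, H, hH1, hH2, hec⟩ := ec hn (η := ε / 3) (by positivity)
  refine ⟨1 / (2 * M), by positivity, min H (1 + ε / 3), lt_min hH1 (by linarith), (min_le_left _ _).trans hH2,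
    fun G hG a b c ha hb hc hab hac h => ?_⟩
  have hG1 : WQ H G := hG.mono (min_le_left _ _)
  have hG2 : WQ (1 + ε / 3) G := hG.mono (min_le_right _ _)
  by_cases hle : dd a b ≤ dd a c
  · refine (hG2 a b c ha hb hc hle).trans (mul_le_mul_of_nonneg_right (by linarith) (norm_nonneg _))
  push Not at hle
  obtain ⟨c', hc', h1, h2⟩ := exists_move ha hc (dd_nonneg a b) hab hac (by omega)
  have h3 := hG2 a b c' ha hb hc' (by rw [h1])
  have h4 : M * dd c c' ≤ dd c a := by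
    have h5 : |dd a c - dd a b| ≤ 1 / (2 * M) * dd a c := by
      rw [abs_sub_comm, abs_of_pos (by linarith)]
      linarith
    rw [dd_comm c a]
    calc M * dd c c' ≤ M * (2 * |dd a c - dd a b|) := mul_le_mul_of_nonneg_left h2 (by linarith)
      _ ≤ M * (2 * (1 / (2 * M) * dd a c)) := by
          refine mul_le_mul_of_nonneg_left ?_ (by linarith)
          linarith
      _ = dd a c := by field_simp
  have h5 := hec G hG1 c c' a hc hc' ha h4
  have h6 : ‖G a - G c'‖ ≤ ‖G a - G c‖ + ‖G c - G c'‖ := norm_sub_le_norm_sub_add_norm_sub _ _ _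
  rw [norm_sub_rev (G c) (G a)] at h5
  calc ‖G a - G b‖ ≤ (1 + ε / 3) * ‖G a - G c'‖ := h3
    _ ≤ (1 + ε / 3) * ((1 + ε / 3) * ‖G a - G c‖) := by
        refine mul_le_mul_of_nonneg_left ?_ (by positivity)
        linarith
    _ = ((1 + ε / 3) * (1 + ε / 3)) * ‖G a - G c‖ := by ring
    _ ≤ (1 + ε) * ‖G a - G c‖ := by
        refine mul_le_mul_of_nonneg_right ?_ (norm_nonneg _)
        nlinarith

end Pool.Agent.H33.QS
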