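import Pool.Agent.H33.QS.Asm

/-!
# Isotopies from near similarities
-/

set_option autoImplicit false

open Set Filter Topology Metric Function MeasureTheory
open scoped ContDiff

noncomputable section

namespace Pool.Agent.H33.QS

open Pool.Agent.Q196.NP (Near eps eps_pos HD Iso iso_of_near U1 Mat CP line col line_mem line_smul col_line
  col_smooth coord_smooth exists_line iso_linear lift_der line_smooth)

section abstract

variable {W : Type*} [NormedAddCommGroup W] [InnerProductSpace ℝ W] [FiniteDimensional ℝ W]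
  [MeasurableSpace W] [BorelSpace W]

/-- a homogeneous map close to the identity and close to linear at all small scales is isotopic to the identity -/
theorem iso_close {G : Set (W ≃ₗᵢ[ℝ] W)} {F : W → W} (hFs : ContDiffOn ℝ ∞ F {0}ᶜ) (hHD : HD G F)
    {s η : ℝ} (hs : 0 < s) (hs1 : s ≤ 1 / 2) (hη : 0 ≤ η)
    (hc : ∀ v, ‖F v - v‖ ≤ η * ‖v‖) (h2 : 5 * η ≤ eps W * s)
    (hn1 : ∀ v, ‖v‖ = 1 → ∀ r, 0 < r → r ≤ s → Near (eps W) F v r) :
    Iso G (fun v => v) F := by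
  have hFc : Continuous F := Pool.Agent.H13.Gap.hom_continuous hFs.continuousOn hHD.hom
  obtain ⟨χ, hχ⟩ : ∃ χ : ℝ → ℝ, χ = Real.smoothTransition := ⟨_, rfl⟩
  have hχ1 : χ 1 = 1 := by rw [hχ]; exact Real.smoothTransition.one_of_one_le le_rfl
  have hχ0 : χ 0 = 0 := by rw [hχ]; exact Real.smoothTransition.zero_of_nonpos le_rfl
  have hH1 : (fun v : W => (1 - χ 1) • v + χ 1 • F v) = F := by
    funext v
    rw [hχ1, sub_self, zero_smul, one_smul, zero_add]
  have key := iso_of_near (G := G) (H := fun t v => (1 - χ t) • v + χ t • F v) (s := s) ?_ ?_ ?_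
    hs hs1 ?_ ?_ ?_ ?_ ?_
  · rwa [hH1] at key
  · have hχc : Continuous χ := by rw [hχ]; exact Real.smoothTransition.continuous
    show Continuous fun p : ℝ × W => (1 - χ p.1) • p.2 + χ p.1 • F p.2
    exact ((continuous_const.sub (hχc.comp continuous_fst)).smul continuous_snd).add
      ((hχc.comp continuous_fst).smul (hFc.comp continuous_snd))
  · intro t r hr v
    show (1 - χ t) • r • v + χ t • F (r • v) = r • ((1 - χ t) • v + χ t • F v)
    rw [hHD.hom r hr]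
    module
  · intro t R hR v
    show (1 - χ t) • R v + χ t • F (R v) = R ((1 - χ t) • v + χ t • F v)
    rw [hHD.equi R hR, map_add, map_smul, map_smul]
  · intro t v hv
    refine ⟨ContinuousLinearMap.id ℝ W, fun w hw => ?_⟩
    show ‖((1 - χ t) • (v + w) + χ t • F (v + w)) - ((1 - χ t) • v + χ t • F v) - w‖ ≤ _
    have e : ((1 - χ t) • (v + w) + χ t • F (v + w)) - ((1 - χ t) • v + χ t • F v) - w =
        χ t • ((F (v + w) - (v + w)) - (F v - v)) := by module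
    have hχn : 0 ≤ χ t := by rw [hχ]; exact Real.smoothTransition.nonneg t
    have hχl : χ t ≤ 1 := by rw [hχ]; exact Real.smoothTransition.le_one t
    rw [e, norm_smul, Real.norm_of_nonneg hχn]
    have h3 : ‖(F (v + w) - (v + w)) - (F v - v)‖ ≤ η * (5 / 2) := by
      refine (norm_sub_le _ _).trans ?_
      have h4 := hc (v + w)
      have h5 := hc v
      have h6 : ‖v + w‖ ≤ 3 / 2 := (norm_add_le _ _).trans (by rw [hv]; linarith)
      have h7 : η * ‖v + w‖ ≤ η * (3 / 2) := mul_le_mul_of_nonneg_left h6 hη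
      rw [hv] at h5
      linarith
    calc χ t * ‖(F (v + w) - (v + w)) - (F v - v)‖ ≤ 1 * (η * (5 / 2)) :=
          mul_le_mul hχl h3 (norm_nonneg _) zero_le_one
      _ ≤ eps W * s := by linarith
  · funext v
    show (1 - χ 0) • v + χ 0 • F v = v
    rw [hχ0, sub_zero, one_smul, zero_smul, add_zero]
  · rw [hH1]; exact hFs
  · rw [hH1]; exact hHD
  · intro v hv r hr hrs
    rw [hH1]
    exact hn1 v hv r hr hrs

end abstract

open Pool.Agent.H13.Wig (V ap ap_zero ap_smul ap_line nz nz_unit line_nz pr norm_sub_pr inner_le_one)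

variable {n : ℕ}

lemma norm_lft_sub {g : V n → V n} (hg : ∀ v, ‖v‖ = 1 → ‖g v‖ = 1) {η : ℝ} (hη : 0 ≤ η)
    (hc : ∀ v, ‖v‖ = 1 → dd (g v) v ≤ η) (x : V n) : ‖lft g x - x‖ ≤ η * ‖x‖ := by
  by_cases hx : x = 0
  · rw [hx]
    unfold lft pr
    rw [inner_zero_right, zero_smul, sub_zero, norm_zero]
    simp
  have hu := nz_unit hx
  have ha := hg _ hu
  have hx0 : ‖x‖ ≠ 0 := norm_ne_zero_iff.2 hx
  have hxn : x = ((‖x‖ : ℝ) : ℂ) • nz x := by
    unfold nz
    rw [smul_smul, ← Complex.ofReal_mul, mul_inv_cancel₀ hx0, Complex.ofReal_one, one_smul]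
  have h1 := norm_sub_pr ha x
  have h2 : ‖(inner ℂ (g (nz x)) x : ℂ)‖ ^ 2 = ‖x‖ ^ 2 * ‖(inner ℂ (g (nz x)) (nz x) : ℂ)‖ ^ 2 := by
    nth_rewrite 2 [hxn]
    rw [inner_smul_right, norm_mul, Complex.norm_real, norm_norm, mul_pow]
  have h3 := dd_sq ha hu
  have h4 : ‖lft g x - x‖ ^ 2 ≤ (η * ‖x‖) ^ 2 := by
    rw [norm_sub_rev]
    unfold lft
    rw [h1, h2]
    have h5 : dd (g (nz x)) (nz x) ^ 2 ≤ η ^ 2 := pow_le_pow_left₀ (dd_nonneg _ _) (hc _ hu) 2
    have h6 : ‖x‖ ^ 2 - ‖x‖ ^ 2 * ‖(inner ℂ (g (nz x)) (nz x) : ℂ)‖ ^ 2 = ‖x‖ ^ 2 * dd (g (nz x)) (nz x) ^ 2 := by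
      rw [h3]; ring
    rw [h6, mul_pow, mul_comm]
    exact mul_le_mul_of_nonneg_right h5 (by positivity)
  exact (pow_le_pow_iff_left₀ (norm_nonneg _) (by positivity) two_ne_zero).1 h4

/-- **growth** -/
theorem growth (hn : 2 ≤ n) {g : V n → V n} (hg : ∀ v, ‖v‖ = 1 → ‖g v‖ = 1) {t ρ η : ℝ} (ht0 : 0 < t)
    (ht1 : t ≤ 1 / 20) (hρ : 0 < ρ) (hρt : ρ ≤ t / 128) (hη : η ≤ ρ / 4)
    (hc : ∀ v, ‖v‖ = 1 → dd (g v) v ≤ η) {v : V n} (hv : ‖v‖ = 1)
    (hns : ∀ r, 0 < r → r ≤ ρ → NS t g v r) {r : ℝ} (hr : 0 < r) (hrρ : 2 * r ≤ ρ) {y : V n} (hy : y ∈ K v)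
    (hyr : ‖y‖ ≤ 2 * r) : ‖W g v y‖ ^ 2 ≤ t * r := by
  obtain ⟨o, ho, hvo, -⟩ := exists_orth2 hn v v
  have hoK : ∀ x : ℝ, x • o ∈ K v := fun x => Submodule.smul_mem _ _ (mem_K.2 hvo)
  have hno : ∀ x : ℝ, 0 ≤ x → ‖x • o‖ = x := fun x hx => by rw [norm_smul, ho, mul_one, Real.norm_of_nonneg hx]
  obtain ⟨m, hm⟩ : ∃ m : ℝ → ℝ, ∀ x, m x = ‖W g v (x • o)‖ := ⟨_, fun _ => rfl⟩
  have hm0 : ∀ x, 0 ≤ m x := fun x => by rw [hm]; exact norm_nonneg _
  have hW0 : W g v 0 = 0 := by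
    unfold W
    rw [ch_zero hv, co_self (hg v hv)]
  -- one scale
  have one : ∀ x, 0 < x → x ≤ ρ → ∀ z ∈ K v, ‖z‖ ≤ x → (1 - t) * x * ‖W g v z‖ ≤ (‖z‖ + t * x) * m x := by
    intro x hx hxρ z hz hzx
    obtain ⟨κ, hκ, h1⟩ := hns x hx hxρ
    have a1 := h1 z hz 0 (Submodule.zero_mem _) hzx (by rw [norm_zero]; exact hx.le)
    have a2 := h1 _ (hoK x) 0 (Submodule.zero_mem _) (hno x hx.le).le (by rw [norm_zero]; exact hx.le)
    rw [hW0, sub_zero, sub_zero] at a1 a2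
    rw [hno x hx.le, ← hm] at a2
    have b1 := (abs_le.1 a1).2
    have b2 := (abs_le.1 a2).1
    have c1 : (1 - t) * x ≤ κ * m x := by linarith
    have c2 : κ * ‖W g v z‖ ≤ ‖z‖ + t * x := by linarith
    calc (1 - t) * x * ‖W g v z‖ ≤ κ * m x * ‖W g v z‖ := mul_le_mul_of_nonneg_right c1 (norm_nonneg _)
      _ = (κ * ‖W g v z‖) * m x := by ring
      _ ≤ (‖z‖ + t * x) * m x := mul_le_mul_of_nonneg_right c2 (hm0 x)
  -- the first scales
  have base : ∀ x, ρ / 2 < x → x ≤ ρ → m x ^ 2 ≤ 16 * ρ * x := by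
    intro x hx hxρ
    have hx0 : 0 < x := by linarith
    have h1 : dd v (ch v (x • o)) ≤ x := by
      have h2 := dd_ch_le hv (Submodule.zero_mem (K v)) (hoK x)
      rwa [ch_zero hv, zero_sub, norm_neg, hno x hx0.le] at h2
    have h3 := hc v hv
    have h4 := hc _ (ch_unit hv (hoK x))
    have h5 : dd (g v) (g (ch v (x • o))) ≤ 2 * x := by
      have e1 := dd_tri (g v) v (g (ch v (x • o)))
      have e2 := dd_tri v (ch v (x • o)) (g (ch v (x • o)))
      rw [dd_comm (g (ch v (x • o)))] at h4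
      linarith
    have h6 : m x ≤ 4 * x := by
      rw [hm]
      unfold W
      have h7 := norm_co (hg v hv) (hg _ (ch_unit hv (hoK x))) (by linarith)
      linarith
    calc m x ^ 2 ≤ (4 * x) ^ 2 := pow_le_pow_left₀ (hm0 x) h6 2
      _ = 16 * (x * x) := by ring
      _ ≤ 16 * (ρ * x) := by
          have := mul_le_mul_of_nonneg_right hxρ hx0.le
          linarith
      _ = 16 * ρ * x := by ring
  have all : ∀ k : ℕ, ∀ x, ρ / 2 ^ (k + 1) < x → x ≤ ρ → m x ^ 2 ≤ 16 * ρ * x := by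
    intro k
    induction k with
    | zero =>
      intro x hx hxρ
      refine base x ?_ hxρ
      simpa using hx
    | succ k ih =>
      intro x hx hxρ
      by_cases h : ρ / 2 < x
      · exact base x h hxρ
      push Not at h
      have hx0 : 0 < x := lt_of_le_of_lt (by positivity) hx
      have h1 := ih (2 * x) (by
        have e : ρ / 2 ^ (k + 1) = 2 * (ρ / 2 ^ (k + 1 + 1)) := by
          rw [pow_succ 2 (k + 1)]
          field_simp
        rw [e]
        linarith) (by linarith)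
      have h2 := one (2 * x) (by linarith) (by linarith) (x • o) (hoK x) (by rw [hno x hx0.le]; linarith)
      rw [hno x hx0.le, ← hm] at h2
      -- `(1 - t) 2 m x ≤ (1 + 2 t) m (2 x)`
      have h3 : (1 - t) * 2 * m x ≤ (1 + 2 * t) * m (2 * x) := by
        have e1 : x * ((1 - t) * 2 * m x) ≤ x * ((1 + 2 * t) * m (2 * x)) := by
          calc x * ((1 - t) * 2 * m x) = (1 - t) * (2 * x) * m x := by ring
            _ ≤ (x + t * (2 * x)) * m (2 * x) := h2
            _ = x * ((1 + 2 * t) * m (2 * x)) := by ring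
        exact le_of_mul_le_mul_left e1 hx0
      have h4 : 19 / 10 * m x ≤ 11 / 10 * m (2 * x) := by
        have e1 : 19 / 10 * m x ≤ (1 - t) * 2 * m x := mul_le_mul_of_nonneg_right (by linarith) (hm0 _)
        have e2 : (1 + 2 * t) * m (2 * x) ≤ 11 / 10 * m (2 * x) := mul_le_mul_of_nonneg_right (by linarith) (hm0 _)
        linarith
      have h5 : m x ≤ 11 / 19 * m (2 * x) := by linarith
      calc m x ^ 2 ≤ (11 / 19 * m (2 * x)) ^ 2 := pow_le_pow_left₀ (hm0 x) h5 2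
        _ = 121 / 361 * m (2 * x) ^ 2 := by ring
        _ ≤ 121 / 361 * (16 * ρ * (2 * x)) := by linarith
        _ ≤ 16 * ρ * x := by
            have : 0 ≤ ρ * x := by positivity
            linarith
  have hmr : m (2 * r) ^ 2 ≤ 16 * ρ * (2 * r) := by
    obtain ⟨k, hk⟩ := exists_pow_lt_of_lt_one (show 0 < 2 * r / ρ by positivity) (by norm_num : (1 / 2 : ℝ) < 1)
    refine all k (2 * r) ?_ hrρ
    rw [lt_div_iff₀ hρ] at hk
    have e1 : ρ / 2 ^ (k + 1) ≤ (1 / 2) ^ k * ρ := by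
      rw [pow_succ, one_div, inv_pow, div_eq_inv_mul, mul_inv]
      have : 0 < ((2 : ℝ) ^ k)⁻¹ := by positivity
      nlinarith
    linarith
  have h1 := one (2 * r) (by linarith) hrρ y hy hyr
  have h2 : ‖W g v y‖ ≤ 2 * m (2 * r) := by
    have e1 : (2 * r) * ((1 - t) * ‖W g v y‖) ≤ (2 * r) * ((1 + t) * m (2 * r)) := by
      calc (2 * r) * ((1 - t) * ‖W g v y‖) = (1 - t) * (2 * r) * ‖W g v y‖ := by ring
        _ ≤ (‖y‖ + t * (2 * r)) * m (2 * r) := h1
        _ ≤ (2 * r + t * (2 * r)) * m (2 * r) := mul_le_mul_of_nonneg_right (by linarith) (hm0 _)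
        _ = (2 * r) * ((1 + t) * m (2 * r)) := by ring
    have e2 := le_of_mul_le_mul_left e1 (by linarith : 0 < 2 * r)
    nlinarith [norm_nonneg (W g v y), hm0 (2 * r)]
  calc ‖W g v y‖ ^ 2 ≤ (2 * m (2 * r)) ^ 2 := pow_le_pow_left₀ (norm_nonneg _) h2 2
    _ = 4 * m (2 * r) ^ 2 := by ring
    _ ≤ 4 * (16 * ρ * (2 * r)) := by linarith
    _ = 128 * ρ * r := by ring
    _ ≤ t * r := mul_le_mul_of_nonneg_right (by linarith) hr.le

end Pool.Agent.H33.QS
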