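import Pool.Agent.H33.QS.EC

/-!
# Weakly quasisymmetric maps with a constant close to one are close to symmetries
-/

set_option autoImplicit false

open Set Filter Topology Metric

noncomputable section

namespace Pool.Agent.H33.QS

open Pool.Agent.H13.Wig (V inner_def inner_le_one norm_sub_sq_c exists_phase exists_close one_sub_le nz nz_unit
  wigner cj norm_cj cj_sub e)

variable {n : ℕ}

/-- additive functions on the unit interval -/
lemma cauchy {f : ℝ → ℝ} (h0 : ∀ x, 0 ≤ x → x ≤ 1 → 0 ≤ f x) (hf0 : f 0 = 0)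
    (h : ∀ x y z, 0 ≤ x → 0 ≤ y → 0 ≤ z → x + y + z = 1 → f x + f y + f z = 1) {x : ℝ} (hx0 : 0 ≤ x)
    (hx1 : x ≤ 1) : f x = x := by
  have hadd : ∀ x y, 0 ≤ x → 0 ≤ y → x + y ≤ 1 → f (x + y) = f x + f y := by
    intro x y hx hy hxy
    have h1 := h x y (1 - x - y) hx hy (by linarith) (by ring)
    have h2 := h (x + y) 0 (1 - x - y) (by linarith) le_rfl (by linarith) (by ring)
    rw [hf0] at h2
    linarith
  have hmono : ∀ x y, 0 ≤ x → x ≤ y → y ≤ 1 → f x ≤ f y := by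
    intro x y hx hxy hy
    have h1 := hadd x (y - x) hx (by linarith) (by linarith)
    have h2 := h0 (y - x) (by linarith) (by linarith)
    rw [add_sub_cancel] at h1
    linarith
  have hf1 : f 1 = 1 := by
    have h1 := h 1 0 0 zero_le_one le_rfl le_rfl (by norm_num)
    rw [hf0] at h1
    linarith
  have hk : ∀ N : ℕ, 0 < N → ∀ k : ℕ, k ≤ N → f (k / N) = k * f (1 / N) := by
    intro N hN k
    have hN' : (0 : ℝ) < N := by exact_mod_cast hN
    induction k with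
    | zero =>
      intro _
      rw [Nat.cast_zero, zero_div, zero_mul, hf0]
    | succ k ih =>
      intro hkN
      have h1 := ih (by omega)
      have h2 : ((k + 1 : ℕ) : ℝ) / N = k / N + 1 / N := by push_cast; ring
      have h3 : ((k + 1 : ℕ) : ℝ) ≤ N := by exact_mod_cast hkN
      rw [h2, hadd _ _ (by positivity) (by positivity) (by rw [← h2, div_le_one hN']; exact h3), h1]
      push_cast
      ring
  have hkN : ∀ N : ℕ, 0 < N → ∀ k : ℕ, k ≤ N → f (k / N) = k / N := by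
    intro N hN k hkN
    have hN' : (0 : ℝ) < N := by exact_mod_cast hN
    have h1 := hk N hN N le_rfl
    rw [div_self hN'.ne', hf1] at h1
    rw [hk N hN k hkN]
    have : f (1 / N) = 1 / N := by field_simp; linarith
    rw [this]
    ring
  have key : ∀ N : ℕ, 0 < N → |f x - x| ≤ 1 / N := by
    intro N hN
    have hN' : (0 : ℝ) < N := by exact_mod_cast hN
    obtain ⟨k, hk⟩ : ∃ k : ℕ, k = ⌊(N : ℝ) * x⌋₊ := ⟨_, rfl⟩
    have h1 : (k : ℝ) ≤ N * x := by rw [hk]; exact Nat.floor_le (by positivity)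
    have h2 : N * x < k + 1 := by rw [hk]; exact Nat.lt_floor_add_one _
    have h3 : (k : ℝ) ≤ N := h1.trans (by nlinarith)
    have h3' : k ≤ N := by exact_mod_cast h3
    have h4 : (k : ℝ) / N ≤ x := by rw [div_le_iff₀ hN']; linarith
    have h5 := hmono _ _ (by positivity) h4 hx1
    rw [hkN N hN k h3'] at h5
    have h6 : x < ((k + 1 : ℕ) : ℝ) / N := by rw [lt_div_iff₀ hN']; push_cast; linarith
    have h7 : ((k + 1 : ℕ) : ℝ) / N = k / N + 1 / N := by push_cast; ring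
    rcases h3'.eq_or_lt with h8 | h8
    · have h9 : x = 1 := by
        rw [h8, div_self hN'.ne'] at h4
        linarith
      rw [h9, hf1, sub_self, abs_zero]
      positivity
    · have h9 := hmono x _ hx0 h6.le (by
        rw [div_le_one hN']
        exact_mod_cast h8)
      rw [hkN N hN (k + 1) h8] at h9
      rw [abs_le]
      constructor <;> linarith
  by_contra hne
  have h1 : 0 < |f x - x| := abs_pos.2 (sub_ne_zero.2 hne)
  obtain ⟨N, hN⟩ := exists_nat_gt (1 / |f x - x|)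
  have hN0 : (0 : ℝ) < N := (by positivity : (0 : ℝ) < 1 / |f x - x|).trans hN
  have h2 := key N (by exact_mod_cast hN0)
  rw [div_lt_iff₀ h1] at hN
  rw [le_div_iff₀ hN0] at h2
  linarith

lemma continuous_pm : Continuous (pm : V n → Y n) := by
  unfold pm
  fun_prop

/-- an orthonormal basis with the given coordinates of a unit vector -/
lemma exists_basis (hn : 2 ≤ n) {v : V n} (hv : ‖v‖ = 1) {x y z : ℝ} (hx : 0 ≤ x) (hy : 0 ≤ y) (hz : 0 ≤ z)
    (h : x + y + z = 1) : ∃ b : Fin (n + 1) → V n, Orthonormal ℂ b ∧ ∃ i j k : Fin (n + 1), i ≠ j ∧ i ≠ k ∧ j ≠ k ∧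
      ‖(inner ℂ v (b i) : ℂ)‖ ^ 2 = x ∧ ‖(inner ℂ v (b j) : ℂ)‖ ^ 2 = y ∧ ‖(inner ℂ v (b k) : ℂ)‖ ^ 2 = z ∧
      ∀ l, l ≠ i → l ≠ j → l ≠ k → (inner ℂ v (b l) : ℂ) = 0 := by
  classical
  obtain ⟨B0, hB0⟩ : ∃ B0 : OrthonormalBasis (Fin (n + 1)) ℂ (V n), B0 = EuclideanSpace.basisFun (Fin (n + 1)) ℂ :=
    ⟨_, rfl⟩
  obtain ⟨i, hi⟩ : ∃ i : Fin (n + 1), i = ⟨0, by omega⟩ := ⟨_, rfl⟩
  obtain ⟨j, hj⟩ : ∃ j : Fin (n + 1), j = ⟨1, by omega⟩ := ⟨_, rfl⟩
  obtain ⟨k, hk⟩ : ∃ k : Fin (n + 1), k = ⟨2, by omega⟩ := ⟨_, rfl⟩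
  have hij : i ≠ j := by rw [hi, hj]; simp
  have hik : i ≠ k := by rw [hi, hk]; simp
  have hjk : j ≠ k := by rw [hj, hk]; simp
  obtain ⟨u, hu⟩ : ∃ u : V n, u = ((√x : ℝ) : ℂ) • B0 i + ((√y : ℝ) : ℂ) • B0 j + ((√z : ℝ) : ℂ) • B0 k := ⟨_, rfl⟩
  have hin : ∀ l m, (inner ℂ (B0 l) (B0 m) : ℂ) = if l = m then 1 else 0 :=
    orthonormal_iff_ite.1 B0.orthonormal
  have hui : (inner ℂ u (B0 i) : ℂ) = ((√x : ℝ) : ℂ) := by
    rw [hu, inner_add_left, inner_add_left, inner_smul_left, inner_smul_left, inner_smul_left, hin, hin, hin,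
      if_pos rfl, if_neg hij.symm, if_neg hik.symm, Complex.conj_ofReal]
    ring
  have huj : (inner ℂ u (B0 j) : ℂ) = ((√y : ℝ) : ℂ) := by
    rw [hu, inner_add_left, inner_add_left, inner_smul_left, inner_smul_left, inner_smul_left, hin, hin, hin,
      if_pos rfl, if_neg hij, if_neg hjk.symm, Complex.conj_ofReal, Complex.conj_ofReal]
    ring
  have huk : (inner ℂ u (B0 k) : ℂ) = ((√z : ℝ) : ℂ) := by
    rw [hu, inner_add_left, inner_add_left, inner_smul_left, inner_smul_left, inner_smul_left, hin, hin, hin,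
      if_pos rfl, if_neg hik, if_neg hjk, Complex.conj_ofReal, Complex.conj_ofReal, Complex.conj_ofReal]
    ring
  have hul : ∀ l, l ≠ i → l ≠ j → l ≠ k → (inner ℂ u (B0 l) : ℂ) = 0 := by
    intro l h1 h2 h3
    rw [hu, inner_add_left, inner_add_left, inner_smul_left, inner_smul_left, inner_smul_left, hin, hin, hin,
      if_neg h1.symm, if_neg h2.symm, if_neg h3.symm]
    ring
  have hun : ‖u‖ = 1 := by
    have h1 : (inner ℂ u u : ℂ) = 1 := by
      nth_rewrite 2 [hu]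
      rw [inner_add_right, inner_add_right, inner_smul_right, inner_smul_right, inner_smul_right, hui, huj, huk,
        ← Complex.ofReal_mul, ← Complex.ofReal_mul, ← Complex.ofReal_mul, Real.mul_self_sqrt hx,
        Real.mul_self_sqrt hy, Real.mul_self_sqrt hz, ← Complex.ofReal_add, ← Complex.ofReal_add, h,
        Complex.ofReal_one]
    rw [inner_self_eq_norm_sq_to_K] at h1
    have h2 : ((‖u‖ ^ 2 : ℝ) : ℂ) = ((1 : ℝ) : ℂ) := by
      rw [Complex.ofReal_pow, Complex.ofReal_one]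
      exact h1
    have h3 := Complex.ofReal_injective h2
    exact (pow_left_inj₀ (norm_nonneg _) zero_le_one two_ne_zero).1 (by rw [h3]; ring)
  have hext : ∀ a : V n, ‖a‖ = 1 → ∃ B : OrthonormalBasis (Fin (n + 1)) ℂ (V n), B i = a := by
    intro a ha
    have h1 : Orthonormal ℂ (({i} : Set (Fin (n + 1))).domRestrict fun _ => a) := by
      refine ⟨fun _ => ha, fun p q hpq => ?_⟩
      exact absurd (Subsingleton.elim p q) hpq
    obtain ⟨B, hB⟩ := h1.exists_orthonormalBasis_extension_of_card_eq (by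
      rw [finrank_euclideanSpace_fin, Fintype.card_fin])
    exact ⟨B, hB i (mem_singleton i)⟩
  obtain ⟨B1, hB1⟩ := hext u hun
  obtain ⟨B2, hB2⟩ := hext v hv
  obtain ⟨T, hT⟩ : ∃ T : V n ≃ₗᵢ[ℂ] V n, T = B1.equiv B2 (Equiv.refl _) := ⟨_, rfl⟩
  have hTu : T u = v := by
    rw [hT, ← hB1, OrthonormalBasis.equiv_apply_basis, Equiv.refl_apply, hB2]
  have hTi : ∀ l, (inner ℂ v (T (B0 l)) : ℂ) = inner ℂ u (B0 l) := fun l => by
    rw [← hTu]
    exact T.inner_map_map u (B0 l)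
  refine ⟨fun l => T (B0 l), B0.orthonormal.comp_linearIsometryEquiv T, i, j, k, hij, hik, hjk, ?_, ?_, ?_, ?_⟩
  · rw [hTi, hui, Complex.norm_real, Real.norm_of_nonneg (Real.sqrt_nonneg _), Real.sq_sqrt hx]
  · rw [hTi, huj, Complex.norm_real, Real.norm_of_nonneg (Real.sqrt_nonneg _), Real.sq_sqrt hy]
  · rw [hTi, huk, Complex.norm_real, Real.norm_of_nonneg (Real.sqrt_nonneg _), Real.sq_sqrt hz]
  · intro l h1 h2 h3
    show (inner ℂ v (T (B0 l)) : ℂ) = 0
    rw [hTi, hul l h1 h2 h3]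

/-- a map which preserves the order of the distances from each point, and orthogonality, preserves transition
probabilities -/
lemma exact (hn : 2 ≤ n) {h : V n → V n} (hu : ∀ v, ‖v‖ = 1 → ‖h v‖ = 1)
    (hM : ∀ p q r, ‖p‖ = 1 → ‖q‖ = 1 → ‖r‖ = 1 → dd p q ≤ dd p r → dd (h p) (h q) ≤ dd (h p) (h r))
    (hO : ∀ p q, ‖p‖ = 1 → ‖q‖ = 1 → (inner ℂ p q : ℂ) = 0 → (inner ℂ (h p) (h q) : ℂ) = 0) {v w : V n}
    (hv : ‖v‖ = 1) (hw : ‖w‖ = 1) : ‖(inner ℂ (h v) (h w) : ℂ)‖ ^ 2 = ‖(inner ℂ v w : ℂ)‖ ^ 2 := by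
  classical
  -- the value depends only on the transition probability
  have hdep : ∀ q q', ‖q‖ = 1 → ‖q'‖ = 1 → ‖(inner ℂ v q : ℂ)‖ ^ 2 = ‖(inner ℂ v q' : ℂ)‖ ^ 2 →
      ‖(inner ℂ (h v) (h q) : ℂ)‖ ^ 2 = ‖(inner ℂ (h v) (h q') : ℂ)‖ ^ 2 := by
    intro q q' hq hq' heq
    have h1 : dd v q = dd v q' := by
      rw [← sq_eq_sq₀ (dd_nonneg _ _) (dd_nonneg _ _), dd_sq hv hq, dd_sq hv hq', heq]
    have h2 := hM v q q' hv hq hq' h1.le
    have h3 := hM v q' q hv hq' hq h1.ge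
    have h4 : dd (h v) (h q) = dd (h v) (h q') := le_antisymm h2 h3
    have h5 := dd_sq (hu v hv) (hu q hq)
    have h6 := dd_sq (hu v hv) (hu q' hq')
    rw [h4] at h5
    linarith
  have hex : ∀ x : ℝ, 0 ≤ x → x ≤ 1 → ∃ q : V n, ‖q‖ = 1 ∧ ‖(inner ℂ v q : ℂ)‖ ^ 2 = x := by
    intro x hx0 hx1
    obtain ⟨b, hb, i, j, k, -, -, -, hi, -⟩ := exists_basis hn hv hx0 (by linarith : 0 ≤ 1 - x) le_rfl (by ring)
    exact ⟨b i, hb.1 i, hi⟩
  choose! Q hQ1 hQ2 using hex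
  obtain ⟨f, hf⟩ : ∃ f : ℝ → ℝ, ∀ x, f x = ‖(inner ℂ (h v) (h (Q x)) : ℂ)‖ ^ 2 := ⟨_, fun _ => rfl⟩
  have hfq : ∀ q, ‖q‖ = 1 → ‖(inner ℂ (h v) (h q) : ℂ)‖ ^ 2 = f (‖(inner ℂ v q : ℂ)‖ ^ 2) := by
    intro q hq
    have h1 : ‖(inner ℂ v q : ℂ)‖ ^ 2 ≤ 1 := by
      have h2 := inner_le_one hv hq
      have h3 := norm_nonneg (inner ℂ v q : ℂ)
      nlinarith
    rw [hf]
    exact hdep q _ hq (hQ1 _ (by positivity) h1) (hQ2 _ (by positivity) h1).symm
  have h0 : f 0 = 0 := by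
    rw [hf]
    have h1 := hQ2 0 le_rfl zero_le_one
    have h2 : (inner ℂ v (Q 0) : ℂ) = 0 := by
      rw [← norm_eq_zero]
      exact pow_eq_zero_iff two_ne_zero |>.1 h1
    rw [hO v _ hv (hQ1 0 le_rfl zero_le_one) h2, norm_zero]
    norm_num
  have hsum : ∀ x y z, 0 ≤ x → 0 ≤ y → 0 ≤ z → x + y + z = 1 → f x + f y + f z = 1 := by
    intro x y z hx hy hz hxyz
    obtain ⟨b, hb, i, j, k, hij, hik, hjk, hi, hj, hk, hl⟩ := exists_basis hn hv hx hy hz hxyz
    have hb1 : ∀ l, ‖b l‖ = 1 := hb.1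
    have hhb : Orthonormal ℂ fun l => h (b l) :=
      ⟨fun l => hu _ (hb1 l), fun l m hlm => hO _ _ (hb1 l) (hb1 m) (hb.2 hlm)⟩
    obtain ⟨B, hB⟩ : ∃ B : OrthonormalBasis (Fin (n + 1)) ℂ (V n), ∀ l, B l = h (b l) := by
      have h1 : Orthonormal ℂ ((univ : Set (Fin (n + 1))).domRestrict fun l => h (b l)) :=
        hhb.comp _ Subtype.val_injective
      obtain ⟨B, hB⟩ := h1.exists_orthonormalBasis_extension_of_card_eq (by
        rw [finrank_euclideanSpace_fin, Fintype.card_fin])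
      exact ⟨B, fun l => hB l (mem_univ l)⟩
    have h1 := B.sum_sq_norm_inner_left (h v)
    rw [hu v hv] at h1
    simp only [hB] at h1
    have h2 : ∀ l, l ∉ ({i, j, k} : Finset (Fin (n + 1))) → ‖(inner ℂ (h v) (h (b l)) : ℂ)‖ ^ 2 = 0 := by
      intro l hlm
      simp only [Finset.mem_insert, Finset.mem_singleton, not_or] at hlm
      rw [hO v _ hv (hb1 l) (hl l hlm.1 hlm.2.1 hlm.2.2), norm_zero]
      norm_num
    have h3 : ∑ l, ‖(inner ℂ (h v) (h (b l)) : ℂ)‖ ^ 2 = ∑ l ∈ ({i, j, k} : Finset (Fin (n + 1))),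
        ‖(inner ℂ (h v) (h (b l)) : ℂ)‖ ^ 2 :=
      (Finset.sum_subset (Finset.subset_univ _) fun l _ hl => h2 l hl).symm
    have h4 : ∑ l ∈ ({i, j, k} : Finset (Fin (n + 1))), ‖(inner ℂ (h v) (h (b l)) : ℂ)‖ ^ 2 =
        ‖(inner ℂ (h v) (h (b i)) : ℂ)‖ ^ 2 + (‖(inner ℂ (h v) (h (b j)) : ℂ)‖ ^ 2 +
          ‖(inner ℂ (h v) (h (b k)) : ℂ)‖ ^ 2) := by
      rw [Finset.sum_insert (by simp [hij, hik]), Finset.sum_insert (by simp [hjk]), Finset.sum_singleton]
    rw [hfq _ (hb1 i), hfq _ (hb1 j), hfq _ (hb1 k), hi, hj, hk] at h4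
    have h5 : ∑ l, ‖(inner ℂ (h v) (h (b l)) : ℂ)‖ ^ 2 = 1 := by
      simpa using h1
    linarith
  have hx : ‖(inner ℂ v w : ℂ)‖ ^ 2 ≤ 1 := by
    have h2 := inner_le_one hv hw
    have h3 := norm_nonneg (inner ℂ v w : ℂ)
    nlinarith
  rw [hfq w hw]
  exact cauchy (fun x _ _ => by rw [hf]; positivity) h0 hsum (by positivity) hx

/-- the symmetric conclusion: `g` is close to the map induced by `T` -/
def Close (g T : V n → V n) (η : ℝ) : Prop := ∀ v, ‖v‖ = 1 → dd (g v) (T v) ≤ η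

/-- **closeness to a symmetry**, from a sequence -/
theorem close_seq {g : ℕ → V n → V n} (hu : ∀ k v, ‖v‖ = 1 → ‖g k v‖ = 1)
    -- equicontinuity
    (hE : ∀ η : ℝ, 0 < η → ∃ δ : ℝ, 0 < δ ∧ ∀ᶠ k in atTop, ∀ p q : V n, ‖p‖ = 1 → ‖q‖ = 1 → dd p q ≤ δ →
      dd (g k p) (g k q) ≤ η)
    -- the limits preserve the transition probabilities
    (hL : ∀ h : V n → V n, (∀ v, ‖v‖ = 1 → Tendsto (fun k => g k v) (hyperfilter ℕ) (𝓝 (h v))) →
      ∀ v w, ‖v‖ = 1 → ‖w‖ = 1 → ‖(inner ℂ (h v) (h w) : ℂ)‖ ^ 2 = ‖(inner ℂ v w : ℂ)‖ ^ 2) {η : ℝ} (hη : 0 < η) :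
    ∃ k, ∃ U : V n ≃ₗᵢ[ℂ] V n, Close (g k) (fun v => U v) η ∨ Close (g k) (fun v => U (cj v)) η := by
  by_contra hcon
  push Not at hcon
  let 𝒰 : Ultrafilter ℕ := hyperfilter ℕ
  have hat : (𝒰 : Filter ℕ) ≤ atTop := Nat.hyperfilter_le_atTop
  have hlim : ∀ x : ℕ → V n, (∀ k, ‖x k‖ = 1) → ∃ y : V n, ‖y‖ = 1 ∧ Tendsto x 𝒰 (𝓝 y) := by
    intro x hx
    have hc : IsCompact (sphere (0 : V n) 1) := isCompact_sphere _ _
    obtain ⟨y, hy1, hy⟩ := hc.ultrafilter_le_nhds' (𝒰.map x) (by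
      rw [Ultrafilter.mem_map]
      refine Filter.mem_of_superset Filter.univ_mem fun k _ => ?_
      rw [mem_preimage, mem_sphere_zero_iff_norm, hx])
    exact ⟨y, by rwa [mem_sphere_zero_iff_norm] at hy1, hy⟩
  have hex : ∀ v : V n, ‖v‖ = 1 → ∃ y : V n, ‖y‖ = 1 ∧ Tendsto (fun k => g k v) 𝒰 (𝓝 y) := fun v hv =>
    hlim _ fun k => hu k v hv
  choose! h hh1 hh2 using hex
  have hpres := hL h hh2
  -- Wigner's theorem
  obtain ⟨G, hG⟩ : ∃ G : V n → V n, ∀ v, G v = ((‖v‖ : ℝ) : ℂ) • h (nz v) := ⟨_, fun _ => rfl⟩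
  have hvn : ∀ v : V n, v ≠ 0 → v = ((‖v‖ : ℝ) : ℂ) • nz v := by
    intro v hv
    unfold nz
    rw [smul_smul, ← Complex.ofReal_mul, mul_inv_cancel₀ (norm_ne_zero_iff.2 hv), Complex.ofReal_one, one_smul]
  have hGp : ∀ v w, ‖(inner ℂ (G v) (G w) : ℂ)‖ = ‖(inner ℂ v w : ℂ)‖ := by
    intro v w
    by_cases hv : v = 0
    · rw [hG, hv, norm_zero, Complex.ofReal_zero, zero_smul, inner_zero_left, inner_zero_left]
    by_cases hw : w = 0
    · rw [hG w, hw, norm_zero, Complex.ofReal_zero, zero_smul, inner_zero_right, inner_zero_right]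
    have h1 := hpres _ _ (nz_unit hv) (nz_unit hw)
    have h2 := (pow_left_inj₀ (norm_nonneg _) (norm_nonneg _) two_ne_zero).1 h1
    have h3 : ‖(inner ℂ v w : ℂ)‖ = ‖(inner ℂ (((‖v‖ : ℝ) : ℂ) • nz v) (((‖w‖ : ℝ) : ℂ) • nz w) : ℂ)‖ := by
      rw [← hvn v hv, ← hvn w hw]
    rw [hG, hG, h3, inner_smul_left, inner_smul_right, norm_mul, norm_mul, h2, inner_smul_left, inner_smul_right,
      norm_mul, norm_mul]
  obtain ⟨U, hU⟩ := wigner hGp
  have hGu : ∀ v, ‖v‖ = 1 → G v = h v := by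
    intro v hv
    rw [hG]
    unfold nz
    rw [hv]
    simp
  obtain ⟨hb1, hb2⟩ : (∀ k, ∃ v, ‖v‖ = 1 ∧ η < dd (g k v) (U v)) ∧ ∀ k, ∃ v, ‖v‖ = 1 ∧ η < dd (g k v) (U (cj v)) := by
    constructor
    · intro k
      have h1 := (hcon k U).1
      unfold Close at h1
      push Not at h1
      exact h1
    · intro k
      have h1 := (hcon k U).2
      unfold Close at h1
      push Not at h1
      exact h1
  have main : ∀ T : V n → V n, (∀ v w, ‖T v - T w‖ ≤ ‖v - w‖) → (∀ v, ‖T v‖ = ‖v‖) →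
      (∀ v, ∃ c : ℂ, G v = c • T v) → ∀ x : ℕ → V n, (∀ k, ‖x k‖ = 1) → (∀ k, η < dd (g k (x k)) (T (x k))) →
      False := by
    intro T hT hTn hTG x hx hbad
    obtain ⟨y, hy, hxy⟩ := hlim x hx
    have hdy : Tendsto (fun k => dd (x k) y) 𝒰 (𝓝 0) := by
      have h1 : Tendsto (fun k => ‖x k - y‖) 𝒰 (𝓝 0) := by
        have := (hxy.sub_const y).norm
        rwa [sub_self, norm_zero] at this
      exact squeeze_zero (fun k => dd_nonneg _ _) (fun k => dd_le (hx k) hy) h1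
    obtain ⟨δ, hδ, hE1⟩ := hE (η / 4) (by linarith)
    obtain ⟨c, hc⟩ := hTG y
    rw [hGu y hy] at hc
    have hc1 : ‖c‖ = 1 := by
      have h1 := hh1 y hy
      rw [hc, norm_smul, hTn, hy, mul_one] at h1
      exact h1
    have hgy : Tendsto (fun k => dd (g k y) (h y)) 𝒰 (𝓝 0) := by
      have h1 : Tendsto (fun k => ‖g k y - h y‖) 𝒰 (𝓝 0) := by
        have := ((hh2 y hy).sub_const (h y)).norm
        rwa [sub_self, norm_zero] at this
      exact squeeze_zero (fun k => dd_nonneg _ _) (fun k => dd_le (hu k y hy) (hh1 y hy)) h1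
    have e1 := hdy.eventually (gt_mem_nhds hδ)
    have e2 := hgy.eventually (gt_mem_nhds (show (0 : ℝ) < η / 4 by linarith))
    have e3 : Tendsto (fun k => ‖x k - y‖) 𝒰 (𝓝 0) := by
      have := (hxy.sub_const y).norm
      rwa [sub_self, norm_zero] at this
    have e4 := e3.eventually (gt_mem_nhds (show (0 : ℝ) < η / 4 by linarith))
    obtain ⟨k, k1, k2, k3, k4⟩ := (e1.and (e2.and (e4.and (hE1.filter_mono hat)))).exists
    have f1 := k4 (x k) y (hx k) hy k1.le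
    have f2 : dd (h y) (T y) = 0 := by rw [hc, dd_smul_left hc1, dd_self]
    have f3 : dd (T y) (T (x k)) ≤ ‖x k - y‖ := by
      refine (dd_le (by rw [hTn, hy]) (by rw [hTn, hx])).trans ?_
      rw [norm_sub_rev (x k) y]
      exact hT _ _
    have t1 := dd_tri (g k (x k)) (g k y) (T (x k))
    have t2 := dd_tri (g k y) (h y) (T (x k))
    have t3 := dd_tri (h y) (T y) (T (x k))
    have := hbad k
    linarith
  rcases hU with hU | hU
  · choose x hx hxb using hb1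
    exact main (fun v => U v) (fun v w => by rw [← map_sub, U.norm_map]) (fun v => U.norm_map v) hU x hx hxb
  · choose x hx hxb using hb2
    exact main (fun v => U (cj v)) (fun v w => by rw [← map_sub, U.norm_map, cj_sub, norm_cj])
      (fun v => by rw [U.norm_map, norm_cj]) hU x hx hxb

/-- **weakly quasisymmetric maps with a constant close to one are close to symmetries** -/
theorem close_of_wq (hn : 2 ≤ n) {η : ℝ} (hη : 0 < η) : ∃ H : ℝ, 1 < H ∧ ∀ g : V n → V n,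
    (∀ v, ‖v‖ = 1 → ‖g v‖ = 1) → WQ H (fun v => pm (g v)) →
    (∃ p q, ‖p‖ = 1 ∧ ‖q‖ = 1 ∧ dd (g p) (g q) = 1) →
    ∃ U : V n ≃ₗᵢ[ℂ] V n, Close g (fun v => U v) η ∨ Close g (fun v => U (cj v)) η := by
  by_contra hcon
  push Not at hcon
  choose g hu hW hnd hbad using fun k : ℕ => hcon (1 + 1 / ((k : ℝ) + 1)) (by
    have : (0 : ℝ) < 1 / ((k : ℝ) + 1) := by positivity
    linarith)
  have hdd1 : ∀ p q : V n, ‖p‖ = 1 → ‖q‖ = 1 → (inner ℂ p q : ℂ) = 0 → dd p q = 1 := by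
    intro p q hp hq h0
    have h1 := dd_sq hp hq
    rw [h0, norm_zero] at h1
    have := dd_nonneg p q
    nlinarith
  have hk0 : Tendsto (fun k : ℕ => 1 + 1 / ((k : ℝ) + 1)) atTop (𝓝 1) := by
    have := tendsto_one_div_add_atTop_nhds_zero_nat (𝕜 := ℝ)
    simpa using this.const_add 1
  obtain ⟨k, U, h | h⟩ := close_seq hu (fun ε hε => by
      obtain ⟨M, hM, H, hH1, -, hec⟩ := ec (n := n) hn hε
      refine ⟨1 / M, by positivity, ?_⟩
      filter_upwards [hk0.eventually (gt_mem_nhds hH1)] with k hk p q hp hq hpq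
      obtain ⟨o, ho, hpo, -⟩ := exists_orth2 hn p p
      have h1 := hec _ ((hW k).mono hk.le) p q o hp hq ho (by
        rw [hdd1 p o hp ho hpo]
        calc M * dd p q ≤ M * (1 / M) := mul_le_mul_of_nonneg_left hpq (by linarith)
          _ = 1 := by field_simp)
      have h2 : dd (g k p) (g k o) ≤ 1 := dd_le_one (hu k p hp) (hu k o ho)
      calc dd (g k p) (g k q) ≤ ε * dd (g k p) (g k o) := h1
        _ ≤ ε * 1 := mul_le_mul_of_nonneg_left h2 hε.le
        _ = ε := mul_one _) (fun h hh v w hv hw => by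
      have hh1 : ∀ v, ‖v‖ = 1 → ‖h v‖ = 1 := by
        intro v hv
        have h1 := (hh v hv).norm
        have h2 : Tendsto (fun k => ‖g k v‖) (hyperfilter ℕ) (𝓝 1) := by
          have : (fun k => ‖g k v‖) = fun _ => (1 : ℝ) := by funext k; exact hu k v hv
          rw [this]
          exact tendsto_const_nhds
        exact tendsto_nhds_unique h1 h2
      have hddl : ∀ p q, ‖p‖ = 1 → ‖q‖ = 1 → Tendsto (fun k => dd (g k p) (g k q)) (hyperfilter ℕ)
          (𝓝 (dd (h p) (h q))) := by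
        intro p q hp hq
        exact (((continuous_pm.tendsto _).comp (hh p hp)).sub ((continuous_pm.tendsto _).comp (hh q hq))).norm
      have hk1 : Tendsto (fun k : ℕ => 1 + 1 / ((k : ℝ) + 1)) (hyperfilter ℕ) (𝓝 1) :=
        hk0.mono_left Nat.hyperfilter_le_atTop
      refine exact hn hh1 ?_ ?_ hv hw
      · intro p q r hp hq hr hpq
        have h1 := hk1.mul (hddl p r hp hr)
        rw [one_mul] at h1
        exact le_of_tendsto_of_tendsto' (hddl p q hp hq) h1 fun k => hW k p q r hp hq hr hpq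
      · intro p q hp hq hpq
        have h1 : ∀ k : ℕ, 1 ≤ (1 + 1 / ((k : ℝ) + 1)) ^ 3 * dd (g k p) (g k q) := by
          intro k
          obtain ⟨P, Q, hP, hQ, hPQ⟩ := hnd k
          obtain ⟨z, hz, hPz, hpz⟩ := exists_orth2 hn P p
          have a1 : dd (g k P) (g k Q) ≤ (1 + 1 / ((k : ℝ) + 1)) * dd (g k P) (g k z) :=
            hW k P Q z hP hQ hz (by rw [hdd1 P z hP hz hPz]; exact dd_le_one hP hQ)
          have a2 : dd (g k z) (g k P) ≤ (1 + 1 / ((k : ℝ) + 1)) * dd (g k z) (g k p) :=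
            hW k z P p hz hP hp (by rw [dd_comm z P, dd_comm z p, hdd1 P z hP hz hPz, hdd1 p z hp hz hpz])
          have a3 : dd (g k p) (g k z) ≤ (1 + 1 / ((k : ℝ) + 1)) * dd (g k p) (g k q) :=
            hW k p z q hp hz hq (by rw [hdd1 p z hp hz hpz, hdd1 p q hp hq hpq])
          rw [hPQ] at a1
          rw [dd_comm (g k z), dd_comm (g k z)] at a2
          have hc : 0 ≤ 1 + 1 / ((k : ℝ) + 1) := by positivity
          calc (1 : ℝ) ≤ (1 + 1 / ((k : ℝ) + 1)) * dd (g k P) (g k z) := a1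
            _ ≤ (1 + 1 / ((k : ℝ) + 1)) * ((1 + 1 / ((k : ℝ) + 1)) * dd (g k p) (g k z)) :=
                mul_le_mul_of_nonneg_left a2 hc
            _ ≤ (1 + 1 / ((k : ℝ) + 1)) * ((1 + 1 / ((k : ℝ) + 1)) * ((1 + 1 / ((k : ℝ) + 1)) *
                dd (g k p) (g k q))) := mul_le_mul_of_nonneg_left (mul_le_mul_of_nonneg_left a3 hc) hc
            _ = _ := by ring
        have h2 := (hk1.pow 3).mul (hddl p q hp hq)
        rw [one_pow, one_mul] at h2
        have h3 : 1 ≤ dd (h p) (h q) := ge_of_tendsto' h2 h1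
        have h4 := dd_sq (hh1 p hp) (hh1 q hq)
        have h5 : ‖(inner ℂ (h p) (h q) : ℂ)‖ ^ 2 = 0 := by
          have := sq_nonneg ‖(inner ℂ (h p) (h q) : ℂ)‖
          nlinarith
        rw [← norm_eq_zero]
        exact pow_eq_zero_iff two_ne_zero |>.1 h5) hη
  · exact (hbad k U).1 h
  · exact (hbad k U).2 h

end Pool.Agent.H33.QS
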