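import Pool.Agent.H33.QS.Unit
import Pool.Agent.H33.QS.Limit

/-!
# Diffeomorphisms of the projective space which are near similarities at small scales
-/

set_option autoImplicit false

open Set Filter Topology Metric Function MeasureTheory
open scoped ContDiff

noncomputable section

namespace Pool.Agent.H33.QS

open Pool.Agent.Q196.NP (Near eps eps_pos HD Iso iso_of_near U1 Mat CP line col line_mem line_smul col_line
  col_smooth coord_smooth exists_line iso_linear lift_der line_smooth)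
open Pool.Agent.H13.Wig (V ap ap_zero ap_smul ap_line nz nz_unit line_nz pr norm_sub_pr inner_le_one cj cj_cj norm_cj
  cj_sub inner_cj cjM cjM_cjM cjM_smooth line_cj cj_ne line_unit tau tau_line)

variable {n : ℕ}

lemma dd_isom (U : V n ≃ₗᵢ[ℂ] V n) {a b : V n} (ha : ‖a‖ = 1) (hb : ‖b‖ = 1) : dd (U a) (U b) = dd a b := by
  rw [← sq_eq_sq₀ (dd_nonneg _ _) (dd_nonneg _ _), dd_sq (by rw [U.norm_map, ha]) (by rw [U.norm_map, hb]),
    dd_sq ha hb, U.inner_map_map]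

lemma dd_cj {a b : V n} (ha : ‖a‖ = 1) (hb : ‖b‖ = 1) : dd (cj a) (cj b) = dd a b := by
  rw [← sq_eq_sq₀ (dd_nonneg _ _) (dd_nonneg _ _), dd_sq (by rw [norm_cj, ha]) (by rw [norm_cj, hb]),
    dd_sq ha hb, inner_cj, RCLike.norm_conj]

lemma pm_eq_of_dd {a b : V n} (h : dd a b = 0) : pm a = pm b := by
  unfold dd at h
  exact sub_eq_zero.1 (norm_eq_zero.1 h)

lemma co_isom (U : V n ≃ₗᵢ[ℂ] V n) (f g : V n) : co (U f) (U g) = U (co f g) := by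
  unfold co
  rw [U.inner_map_map, map_smul, map_sub, map_smul]

lemma ns_isom (U : V n ≃ₗᵢ[ℂ] V n) {g : V n → V n} {ε r : ℝ} {v : V n} (h : NS ε g v r) :
    NS ε (fun v => U (g v)) v r := by
  obtain ⟨κ, hκ, h1⟩ := h
  refine ⟨κ, hκ, fun y hy z hz hyr hzr => ?_⟩
  have h2 := h1 y hy z hz hyr hzr
  have h3 : ∀ y, W (fun v => U (g v)) v y = U (W g v y) := fun y => co_isom U _ _
  rw [h3, h3, ← map_sub, U.norm_map]
  exact h2

lemma cj_smul (c : ℂ) (v : V n) : cj (c • v) = (starRingEnd ℂ) c • cj v := by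
  ext i
  show (starRingEnd ℂ) (c * v i) = (starRingEnd ℂ) c * (starRingEnd ℂ) (v i)
  rw [map_mul]

lemma cj_add (v w : V n) : cj (v + w) = cj v + cj w := by
  ext i
  show (starRingEnd ℂ) (v i + w i) = (starRingEnd ℂ) (v i) + (starRingEnd ℂ) (w i)
  rw [map_add]

lemma cj_ch (v y : V n) : cj (ch v y) = ch (cj v) (cj y) := by
  unfold ch nz
  rw [cj_smul, Complex.conj_ofReal, ← cj_add, norm_cj]

lemma cj_mem {v y : V n} (hy : y ∈ K v) : cj y ∈ K (cj v) := by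
  rw [mem_K, inner_cj, mem_K.1 hy, map_zero]

lemma ns_cj {g : V n → V n} {ε r : ℝ} {v : V n} (h : NS ε g (cj v) r) : NS ε (fun v => g (cj v)) v r := by
  obtain ⟨κ, hκ, h1⟩ := h
  refine ⟨κ, hκ, fun y hy z hz hyr hzr => ?_⟩
  have h2 := h1 (cj y) (cj_mem hy) (cj z) (cj_mem hz) (by rwa [norm_cj]) (by rwa [norm_cj])
  have h3 : ∀ y, W (fun v => g (cj v)) v y = W g (cj v) (cj y) := fun y => by
    show co (g (cj v)) (g (cj (ch v y))) = _
    rw [cj_ch]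
    rfl
  rw [h3, h3]
  rwa [cj_sub, norm_cj] at h2

/-- the constant -/
def tc (n : ℕ) : ℝ := min (1 / 20) (eps (V n) / (100 * (2 * n + 1)))

lemma tc_pos : 0 < tc n := by
  unfold tc
  have := eps_pos (W := V n)
  positivity

/-- **the isotopy**, unitary case -/
theorem main_unitary (hn : 2 ≤ n) {ρ : ℝ} (hρ : 0 < ρ) : ∃ η : ℝ, 0 < η ∧ ∀ φ ψ : Mat n → Mat n, ContDiff ℝ ∞ φ →
    ContDiff ℝ ∞ ψ → (∀ P ∈ CP n, ψ (φ P) = P) → ∀ g : V n → V n, (∀ v, ‖v‖ = 1 → ‖g v‖ = 1) →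
    (∀ v, ‖v‖ = 1 → φ (line v) = line (g v)) →
    (∀ p q, ‖p‖ = 1 → ‖q‖ = 1 → dd p q = 0 → dd (g p) (g q) = 0) →
    (∀ v, ‖v‖ = 1 → ∀ r, 0 < r → r ≤ ρ → NS (tc n) g v r) →
    (∀ v, ‖v‖ = 1 → ∀ y ∈ K v, ‖y‖ ≤ ρ → dd (g v) (g (ch v y)) ≤ tc n / 2) →
    ∀ U : V n ≃ₗᵢ[ℂ] V n, Close g (fun v => U v) η →
    ∃ F : V n → V n, Iso (U1 n) (fun v => v) F ∧ ∀ v, v ≠ 0 → φ (line v) = line (F v) := by
  have he := eps_pos (W := V n)
  obtain ⟨t, ht⟩ : ∃ t : ℝ, t = tc n := ⟨_, rfl⟩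
  have ht0 : 0 < t := by rw [ht]; exact tc_pos
  have ht1 : t ≤ 1 / 20 := by rw [ht]; exact min_le_left _ _
  have ht2 : 100 * (2 * n + 1) * t ≤ eps (V n) := by
    have : t ≤ eps (V n) / (100 * (2 * n + 1)) := by rw [ht]; exact min_le_right _ _
    rw [le_div_iff₀ (by positivity)] at this
    linarith
  obtain ⟨ρ', hρ'⟩ : ∃ ρ' : ℝ, ρ' = min ρ (t / 128) := ⟨_, rfl⟩
  have hρ'0 : 0 < ρ' := by rw [hρ']; positivity
  have hρ'1 : ρ' ≤ ρ := by rw [hρ']; exact min_le_left _ _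
  have hρ'2 : ρ' ≤ t / 128 := by rw [hρ']; exact min_le_right _ _
  obtain ⟨η, hη⟩ : ∃ η : ℝ, η = min (ρ' / 4) (min t (eps (V n) * (ρ' / 2) / 5)) := ⟨_, rfl⟩
  have hη0 : 0 < η := by rw [hη]; positivity
  have hη1 : η ≤ ρ' / 4 := by rw [hη]; exact min_le_left _ _
  have hη2 : η ≤ t := by rw [hη]; exact (min_le_right _ _).trans (min_le_left _ _)
  have hη3 : η ≤ eps (V n) * (ρ' / 2) / 5 := by rw [hη]; exact (min_le_right _ _).trans (min_le_right _ _)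
  refine ⟨η, hη0, fun φ ψ hφs hψs hψφ g hg hgφ hph hns hsm U hU => ?_⟩
  rw [← ht] at hns hsm
  obtain ⟨g', hg'⟩ : ∃ g' : V n → V n, g' = fun v => U.symm (g v) := ⟨_, rfl⟩
  have hg'u : ∀ v, ‖v‖ = 1 → ‖g' v‖ = 1 := fun v hv => by rw [hg', U.symm.norm_map]; exact hg v hv
  have hcl : ∀ v, ‖v‖ = 1 → dd (g' v) v ≤ η := by
    intro v hv
    have h1 : dd (g' v) v = dd (g v) (U v) := by
      rw [← dd_isom U (hg'u v hv) hv, hg', U.apply_symm_apply]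
    rw [h1]
    exact hU v hv
  have hns' : ∀ v, ‖v‖ = 1 → ∀ r, 0 < r → r ≤ ρ → NS t g' v r := fun v hv r hr hrρ => by
    rw [hg']
    exact ns_isom U.symm (hns v hv r hr hrρ)
  refine unitary_case2 hφs hψs hψφ hg hgφ U (s := ρ' / 2) (η := η) (by linarith) (by linarith) hη0.le (by linarith)
    (by linarith) (by rw [hg'] at hcl; exact hcl) fun v hv r hr hrs => ?_
  rw [← hg']
  refine near_lft hg'u (fun p q hp hq hpq => pm_eq_of_dd ?_) ht0 (by linarith) ht2 hv hr (by linarith)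
    (hns' v hv _ (by linarith) (by linarith)) (fun y hy hyr => ?_) (fun y hy hyr => ?_) ((hcl v hv).trans hη2)
  · rw [hg']
    show dd (U.symm (g p)) (U.symm (g q)) = 0
    rw [dd_isom U.symm (hg p hp) (hg q hq)]
    exact hph p q hp hq hpq
  · rw [hg']
    show dd (U.symm (g v)) (U.symm (g (ch v y))) ≤ t / 2
    rw [dd_isom U.symm (hg v hv) (hg _ (ch_unit hv hy))]
    exact hsm v hv y hy (by linarith)
  · exact growth hn hg'u ht0 ht1 hρ'0 hρ'2 hη1 hcl hv (fun x hx hxρ => hns' v hv x hx (hxρ.trans hρ'1)) hr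
      (by linarith) hy hyr

/-- **the isotopy** -/
theorem main_iso (hn : 2 ≤ n) {ρ : ℝ} (hρ : 0 < ρ) : ∃ η : ℝ, 0 < η ∧ ∀ φ ψ : Mat n → Mat n, ContDiff ℝ ∞ φ →
    ContDiff ℝ ∞ ψ → (∀ P ∈ CP n, ψ (φ P) = P) → ∀ g : V n → V n, (∀ v, ‖v‖ = 1 → ‖g v‖ = 1) →
    (∀ v, ‖v‖ = 1 → φ (line v) = line (g v)) →
    (∀ p q, ‖p‖ = 1 → ‖q‖ = 1 → dd p q = 0 → dd (g p) (g q) = 0) →
    (∀ v, ‖v‖ = 1 → ∀ r, 0 < r → r ≤ ρ → NS (tc n) g v r) →
    (∀ v, ‖v‖ = 1 → ∀ y ∈ K v, ‖y‖ ≤ ρ → dd (g v) (g (ch v y)) ≤ tc n / 2) →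
    ∀ U : V n ≃ₗᵢ[ℂ] V n, (Close g (fun v => U v) η ∨ Close g (fun v => U (cj v)) η) →
    (∃ F : V n → V n, Iso (U1 n) (fun v => v) F ∧ ∀ v, v ≠ 0 → φ (line v) = line (F v)) ∨
    (∃ F : V n → V n, Iso (U1 n) (fun v => v) F ∧ ∀ v, v ≠ 0 → φ (cjM (line v)) = line (F v)) := by
  obtain ⟨η, hη, H⟩ := main_unitary hn hρ
  refine ⟨η, hη, fun φ ψ hφs hψs hψφ g hg hgφ hph hns hsm U hU => ?_⟩
  rcases hU with hU | hU
  · exact Or.inl (H φ ψ hφs hψs hψφ g hg hgφ hph hns hsm U hU)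
  · right
    have hcn : ∀ v : V n, ‖v‖ = 1 → ‖cj v‖ = 1 := fun v hv => by rw [norm_cj, hv]
    have hcM : ∀ P ∈ CP n, cjM P ∈ CP n := by
      intro P hP
      obtain ⟨v, hv, rfl⟩ := exists_line hP
      rw [← line_cj]
      exact line_mem (cj_ne hv)
    refine H (fun P => φ (cjM P)) (fun P => cjM (ψ P)) (hφs.comp cjM_smooth) (cjM_smooth.comp hψs) ?_
      (fun v => g (cj v)) (fun v hv => hg _ (hcn v hv)) ?_ ?_ ?_ ?_ U ?_
    · intro P hP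
      show cjM (ψ (φ (cjM P))) = P
      rw [hψφ _ (hcM P hP), cjM_cjM]
    · intro v hv
      show φ (cjM (line v)) = line (g (cj v))
      rw [← line_cj, hgφ _ (hcn v hv)]
    · intro p q hp hq hpq
      exact hph _ _ (hcn p hp) (hcn q hq) (by rw [dd_cj hp hq, hpq])
    · intro v hv r hr hrρ
      exact ns_cj (hns _ (hcn v hv) r hr hrρ)
    · intro v hv y hy hyρ
      show dd (g (cj v)) (g (cj (ch v y))) ≤ _
      rw [cj_ch]
      exact hsm _ (hcn v hv) _ (cj_mem hy) (by rwa [norm_cj])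
    · intro v hv
      have h1 := hU (cj v) (hcn v hv)
      simp only [cj_cj] at h1
      exact h1

/-- the chordal distance -/
def chord (P Q : Mat n) : ℝ := √(1 - tau P Q)

lemma chord_line {a b : V n} (ha : ‖a‖ = 1) (hb : ‖b‖ = 1) : chord (line a) (line b) = dd a b := by
  unfold chord
  rw [tau_line ha hb, ← dd_sq ha hb, Real.sqrt_sq (dd_nonneg _ _)]

lemma line_of_dd {a b : V n} (ha : ‖a‖ = 1) (hb : ‖b‖ = 1) (h : dd a b = 0) : line a = line b := by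
  have h1 := pm_eq_of_dd h
  funext i j
  rw [line_unit ha, line_unit hb]
  have h2 : pm a (i, j) = pm b (i, j) := by rw [h1]
  rw [pm_apply, pm_apply] at h2
  have h3 : (((√2)⁻¹ : ℝ) : ℂ) ≠ 0 := by
    rw [Complex.ofReal_ne_zero]
    positivity
  exact mul_left_cancel₀ h3 h2

/-- the basic data of a diffeomorphism: the field of unit vectors -/
lemma exists_g {φ ψ : Mat n → Mat n} (hφ : ∀ P ∈ CP n, φ P ∈ CP n) (hψφ : ∀ P ∈ CP n, ψ (φ P) = P) :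
    ∃ g : V n → V n, (∀ v, ‖v‖ = 1 → ‖g v‖ = 1) ∧ (∀ v, ‖v‖ = 1 → φ (line v) = line (g v)) ∧
      (∀ p q, ‖p‖ = 1 → ‖q‖ = 1 → (dd p q = 0 ↔ dd (g p) (g q) = 0)) := by
  have hmem : ∀ v : V n, ‖v‖ = 1 → line v ∈ CP n := fun v hv => line_mem (unit_ne hv)
  have hex : ∀ v : V n, ‖v‖ = 1 → ∃ u : V n, ‖u‖ = 1 ∧ φ (line v) = line u := by
    intro v hv
    obtain ⟨u, hu, h⟩ := exists_line (hφ _ (hmem v hv))
    exact ⟨nz u, nz_unit hu, by rw [line_nz hu, h]⟩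
  choose! g hg1 hg2 using hex
  refine ⟨g, hg1, hg2, fun p q hp hq => ⟨fun h => ?_, fun h => ?_⟩⟩
  · have h1 := line_of_dd hp hq h
    rw [← chord_line (hg1 p hp) (hg1 q hq), ← hg2 p hp, ← hg2 q hq, h1, hg2 q hq, chord_line (hg1 q hq) (hg1 q hq),
      dd_self]
  · have h1 := line_of_dd (hg1 p hp) (hg1 q hq) h
    rw [← hg2 p hp, ← hg2 q hq] at h1
    have h2 : line p = line q := by rw [← hψφ _ (hmem p hp), h1, hψφ _ (hmem q hq)]
    rw [← chord_line hp hq, h2, chord_line hq hq, dd_self]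

/-- **weakly quasisymmetric diffeomorphisms** -/
theorem wq_main (hn : 2 ≤ n) : ∃ H : ℝ, 1 < H ∧ ∀ φ ψ : Mat n → Mat n, ContDiff ℝ ∞ φ →
    ContDiff ℝ ∞ ψ → (∀ P ∈ CP n, φ P ∈ CP n) → (∀ P ∈ CP n, ψ P ∈ CP n ∧ ψ (φ P) = P ∧ φ (ψ P) = P) →
    (∀ P ∈ CP n, ∀ Q ∈ CP n, ∀ R ∈ CP n, chord P Q ≤ chord P R →
      chord (φ P) (φ Q) ≤ H * chord (φ P) (φ R)) →
    (∃ F : V n → V n, Iso (U1 n) (fun v => v) F ∧ ∀ v, v ≠ 0 → φ (line v) = line (F v)) ∨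
    (∃ F : V n → V n, Iso (U1 n) (fun v => v) F ∧ ∀ v, v ≠ 0 → φ (cjM (line v)) = line (F v)) := by
  obtain ⟨ρ, hρ, H1, hH1, -, hns⟩ := ns_of_wq (n := n) hn (ε := tc n) tc_pos (show 0 < tc n / 2 by
    have := tc_pos (n := n)
    positivity)
  obtain ⟨η, hη, hmain⟩ := main_iso (n := n) hn hρ
  obtain ⟨H2, hH2, hcl⟩ := close_of_wq (n := n) hn hη
  refine ⟨min H1 H2, lt_min hH1 hH2, fun φ ψ hφs hψs hφ hψ hW => ?_⟩
  obtain ⟨g, hg1, hg2, hg3⟩ := exists_g hφ fun P hP => (hψ P hP).2.1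
  have hmem : ∀ v : V n, ‖v‖ = 1 → line v ∈ CP n := fun v hv => line_mem (unit_ne hv)
  have hWg : WQ (min H1 H2) (fun v => pm (g v)) := by
    intro p q r hp hq hr hpq
    have h1 := hW _ (hmem p hp) _ (hmem q hq) _ (hmem r hr) (by rwa [chord_line hp hq, chord_line hp hr])
    rwa [hg2 p hp, hg2 q hq, hg2 r hr, chord_line (hg1 p hp) (hg1 q hq), chord_line (hg1 p hp) (hg1 r hr)] at h1
  have hnd : ∃ p q, ‖p‖ = 1 ∧ ‖q‖ = 1 ∧ dd (g p) (g q) = 1 := by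
    obtain ⟨b, hb, i, j, k, hij, -⟩ := exists_basis hn (v := nz (EuclideanSpace.single (0 : Fin (n + 1)) (1 : ℂ)))
      (nz_unit (by
        intro h
        have := congrArg norm h
        simp at this)) zero_le_one le_rfl le_rfl (by norm_num)
    have hb1 : ∀ l, ‖b l‖ = 1 := hb.1
    have key : ∀ l, ∃ p : V n, ‖p‖ = 1 ∧ line (g p) = line (b l) := by
      intro l
      obtain ⟨h1, -, h3⟩ := hψ _ (hmem _ (hb1 l))
      obtain ⟨u, hu, hu2⟩ := exists_line h1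
      refine ⟨nz u, nz_unit hu, ?_⟩
      rw [← hg2 _ (nz_unit hu), line_nz hu, ← hu2, h3]
    obtain ⟨p, hp, hp2⟩ := key i
    obtain ⟨q, hq, hq2⟩ := key j
    refine ⟨p, q, hp, hq, ?_⟩
    rw [← chord_line (hg1 p hp) (hg1 q hq), hp2, hq2, chord_line (hb1 i) (hb1 j),
      ← sq_eq_sq₀ (dd_nonneg _ _) zero_le_one, dd_sq (hb1 i) (hb1 j), hb.2 hij, norm_zero]
    norm_num
  obtain ⟨U, hU⟩ := hcl g hg1 (hWg.mono (min_le_right _ _)) hnd
  have h1 := hns g hg1 (hWg.mono (min_le_left _ _)) (fun a b ha hb h => (hg3 a b ha hb).2 h)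
  exact hmain φ ψ hφs hψs (fun P hP => (hψ P hP).2.1) g hg1 hg2 (fun p q hp hq h => (hg3 p q hp hq).1 h)
    (fun v hv => (h1 v hv).2) (fun v hv => (h1 v hv).1) U hU

end Pool.Agent.H33.QS
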