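import Pool.Agent.H33.QS.EC

/-!
# Weakly quasisymmetric maps are near similarities at small scales
-/

set_option autoImplicit false

open Set Filter Topology Metric

noncomputable section

namespace Pool.Agent.H33.QS

open Pool.Agent.H13.Wig (V inner_def inner_le_one norm_sub_sq_c exists_phase exists_close one_sub_le nz nz_unit)
open Pool.Agent.H33.NC (E)

variable {n : ℕ}

/-- the orthogonal complement of `v` -/
def K (v : V n) : Submodule ℝ (V n) := ((Submodule.span ℂ {v})ᗮ).restrictScalars ℝ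

lemma mem_K {v y : V n} : y ∈ K v ↔ (inner ℂ v y : ℂ) = 0 := by
  show y ∈ (Submodule.span ℂ {v})ᗮ ↔ _
  exact Submodule.mem_orthogonal_singleton_iff_inner_right

lemma finrank_K {v : V n} (hv : v ≠ 0) : Module.finrank ℝ (K v) = 2 * n := by
  have h1 : Module.finrank ℝ (K v) = Module.finrank ℝ ((Submodule.span ℂ {v})ᗮ : Submodule ℂ (V n)) := rfl
  rw [h1, finrank_real_of_complex]
  have h2 := (Submodule.span ℂ {v}).finrank_add_finrank_orthogonal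
  rw [finrank_euclideanSpace_fin, finrank_span_singleton hv] at h2
  omega

lemma exists_iso {v : V n} (hv : v ≠ 0) : Nonempty (E (2 * n) ≃ₗᵢ[ℝ] K v) := by
  exact ⟨((stdOrthonormalBasis ℝ (K v)).reindex (finCongr (finrank_K hv))).repr.symm⟩

lemma unit_ne {v : V n} (hv : ‖v‖ = 1) : v ≠ 0 := fun h => by
  rw [h, norm_zero] at hv
  exact zero_ne_one hv

lemma inner_self_one {v : V n} (hv : ‖v‖ = 1) : (inner ℂ v v : ℂ) = 1 := by
  rw [inner_self_eq_norm_sq_to_K, hv]; simp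

lemma norm_sq_add {v y : V n} (hv : ‖v‖ = 1) (hy : y ∈ K v) : ‖v + y‖ ^ 2 = 1 + ‖y‖ ^ 2 := by
  have h1 := mem_K.1 hy
  have h2 := norm_sub_sq_c v (-y)
  rw [sub_neg_eq_add, inner_neg_right, h1, norm_neg, hv] at h2
  rw [h2]
  simp

lemma add_ne {v y : V n} (hv : ‖v‖ = 1) (hy : y ∈ K v) : v + y ≠ 0 := by
  intro h
  have := norm_sq_add hv hy
  rw [h, norm_zero] at this
  nlinarith [sq_nonneg ‖y‖]

/-- the affine chart -/
def ch (v y : V n) : V n := nz (v + y)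

lemma ch_unit {v y : V n} (hv : ‖v‖ = 1) (hy : y ∈ K v) : ‖ch v y‖ = 1 := nz_unit (add_ne hv hy)

lemma ch_zero {v : V n} (hv : ‖v‖ = 1) : ch v 0 = v := by
  unfold ch nz
  rw [add_zero, hv]
  simp

lemma dd_ch {v y z : V n} (hv : ‖v‖ = 1) (hy : y ∈ K v) (hz : z ∈ K v) :
    dd (ch v y) (ch v z) ^ 2 * ((1 + ‖y‖ ^ 2) * (1 + ‖z‖ ^ 2)) =
      ‖y - z‖ ^ 2 + (‖y‖ ^ 2 * ‖z‖ ^ 2 - ‖(inner ℂ y z : ℂ)‖ ^ 2) := by
  have hvv := inner_self_one hv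
  have hyv : (inner ℂ y v : ℂ) = 0 := by rw [← inner_conj_symm, mem_K.1 hy, map_zero]
  have h1 : (inner ℂ (v + y) (v + z) : ℂ) = 1 + inner ℂ y z := by
    rw [inner_add_left, inner_add_right, inner_add_right, hvv, mem_K.1 hz, hyv]
    ring
  have h2 : ‖(inner ℂ (ch v y) (ch v z) : ℂ)‖ ^ 2 * ((1 + ‖y‖ ^ 2) * (1 + ‖z‖ ^ 2)) =
      ‖(1 : ℂ) + inner ℂ y z‖ ^ 2 := by
    unfold ch nz
    rw [inner_smul_left, inner_smul_right, h1, norm_mul, norm_mul, Complex.conj_ofReal, Complex.norm_real,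
      Complex.norm_real, norm_inv, norm_inv, norm_norm, norm_norm, mul_pow, mul_pow, inv_pow, inv_pow,
      norm_sq_add hv hy, norm_sq_add hv hz]
    have e1 : (0 : ℝ) < 1 + ‖y‖ ^ 2 := by positivity
    have e2 : (0 : ℝ) < 1 + ‖z‖ ^ 2 := by positivity
    field_simp
  have h3 : ‖(1 : ℂ) + inner ℂ y z‖ ^ 2 = 1 + 2 * (inner ℂ y z : ℂ).re + ‖(inner ℂ y z : ℂ)‖ ^ 2 := by
    rw [← Complex.normSq_eq_norm_sq, ← Complex.normSq_eq_norm_sq, Complex.normSq_apply, Complex.normSq_apply,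
      Complex.add_re, Complex.add_im, Complex.one_re, Complex.one_im]
    ring
  rw [dd_sq (ch_unit hv hy) (ch_unit hv hz), sub_mul, h2, h3, norm_sub_sq_c]
  ring

lemma dd_ch_le {v y z : V n} (hv : ‖v‖ = 1) (hy : y ∈ K v) (hz : z ∈ K v) :
    dd (ch v y) (ch v z) ≤ ‖y - z‖ := by
  have h1 := dd_ch hv hy hz
  have h2 : ‖y‖ ^ 2 * ‖z‖ ^ 2 - ‖(inner ℂ y z : ℂ)‖ ^ 2 ≤ ‖y‖ ^ 2 * ‖y - z‖ ^ 2 := by
    have h3 : 0 ≤ ‖((‖y‖ ^ 2 : ℝ) : ℂ) - inner ℂ y z‖ ^ 2 := sq_nonneg _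
    have h4 : ‖((‖y‖ ^ 2 : ℝ) : ℂ) - inner ℂ y z‖ ^ 2 = ‖y‖ ^ 4 - 2 * ‖y‖ ^ 2 * (inner ℂ y z : ℂ).re +
        ‖(inner ℂ y z : ℂ)‖ ^ 2 := by
      rw [← Complex.normSq_eq_norm_sq, ← Complex.normSq_eq_norm_sq, Complex.normSq_apply, Complex.normSq_apply,
        Complex.sub_re, Complex.sub_im, Complex.ofReal_re, Complex.ofReal_im]
      ring
    rw [norm_sub_sq_c]
    nlinarith
  have h5 : dd (ch v y) (ch v z) ^ 2 * (1 + ‖z‖ ^ 2) ≤ ‖y - z‖ ^ 2 := by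
    have h6 : (1 + ‖y‖ ^ 2) * (dd (ch v y) (ch v z) ^ 2 * (1 + ‖z‖ ^ 2)) ≤ (1 + ‖y‖ ^ 2) * ‖y - z‖ ^ 2 := by
      nlinarith
    exact le_of_mul_le_mul_left h6 (by positivity)
  have h7 : dd (ch v y) (ch v z) ^ 2 ≤ ‖y - z‖ ^ 2 := by
    nlinarith [mul_nonneg (sq_nonneg (dd (ch v y) (ch v z))) (sq_nonneg ‖z‖)]
  exact (pow_le_pow_iff_left₀ (dd_nonneg _ _) (norm_nonneg _) two_ne_zero).1 h7

lemma le_dd_ch {v y z : V n} (hv : ‖v‖ = 1) (hy : y ∈ K v) (hz : z ∈ K v) {ρ : ℝ} (hyρ : ‖y‖ ≤ ρ) (hzρ : ‖z‖ ≤ ρ) :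
    ‖y - z‖ ≤ (1 + ρ ^ 2) * dd (ch v y) (ch v z) := by
  have h1 := dd_ch hv hy hz
  have h2 : ‖(inner ℂ y z : ℂ)‖ ^ 2 ≤ ‖y‖ ^ 2 * ‖z‖ ^ 2 := by
    rw [← mul_pow]
    exact pow_le_pow_left₀ (norm_nonneg _) (norm_inner_le_norm y z) 2
  have hy2 : ‖y‖ ^ 2 ≤ ρ ^ 2 := pow_le_pow_left₀ (norm_nonneg _) hyρ 2
  have hz2 : ‖z‖ ^ 2 ≤ ρ ^ 2 := pow_le_pow_left₀ (norm_nonneg _) hzρ 2
  have h3 : ‖y - z‖ ^ 2 ≤ ((1 + ρ ^ 2) * dd (ch v y) (ch v z)) ^ 2 := by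
    calc ‖y - z‖ ^ 2 ≤ dd (ch v y) (ch v z) ^ 2 * ((1 + ‖y‖ ^ 2) * (1 + ‖z‖ ^ 2)) := by linarith
      _ ≤ dd (ch v y) (ch v z) ^ 2 * ((1 + ρ ^ 2) * (1 + ρ ^ 2)) := by gcongr
      _ = _ := by ring
  exact (pow_le_pow_iff_left₀ (norm_nonneg _) (mul_nonneg (by positivity) (dd_nonneg _ _)) two_ne_zero).1 h3

/-- the coordinate of the line of `g` in the affine chart around `f` -/
def co (f g : V n) : V n := (inner ℂ f g : ℂ)⁻¹ • (g - (inner ℂ f g : ℂ) • f)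

lemma co_mem {f g : V n} (hf : ‖f‖ = 1) : co f g ∈ K f := by
  rw [mem_K]
  unfold co
  rw [inner_smul_right, inner_sub_right, inner_smul_right, inner_self_one hf, mul_one, sub_self, mul_zero]

lemma co_self {f : V n} (hf : ‖f‖ = 1) : co f f = 0 := by
  unfold co
  rw [inner_self_one hf, one_smul, sub_self, smul_zero]

lemma co_add {f g : V n} (h : (inner ℂ f g : ℂ) ≠ 0) : f + co f g = (inner ℂ f g : ℂ)⁻¹ • g := by
  unfold co
  rw [smul_sub, smul_smul, inv_mul_cancel₀ h, one_smul]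
  abel

lemma inner_ne {f g : V n} (hf : ‖f‖ = 1) (hg : ‖g‖ = 1) (h : dd f g < 1) : (inner ℂ f g : ℂ) ≠ 0 := by
  intro h0
  have h1 := dd_sq hf hg
  rw [h0, norm_zero] at h1
  have h2 := dd_nonneg f g
  nlinarith

/-- the chart inverts the coordinate, up to a phase -/
lemma ch_co {f g : V n} (hg : ‖g‖ = 1) (h : (inner ℂ f g : ℂ) ≠ 0) :
    ∃ μ : ℂ, ‖μ‖ = 1 ∧ ch f (co f g) = μ • g := by
  have h0 : (‖(inner ℂ f g : ℂ)‖ : ℝ) ≠ 0 := norm_ne_zero_iff.2 h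
  refine ⟨((‖(inner ℂ f g : ℂ)‖ : ℝ) : ℂ) * (inner ℂ f g : ℂ)⁻¹, ?_, ?_⟩
  · rw [norm_mul, norm_inv, Complex.norm_real, norm_norm, mul_inv_cancel₀ h0]
  · unfold ch nz
    rw [co_add h, norm_smul, norm_inv, hg, mul_one, inv_inv, smul_smul]

lemma dd_ch_co {f g x : V n} (hg : ‖g‖ = 1) (h : (inner ℂ f g : ℂ) ≠ 0) : dd (ch f (co f g)) x = dd g x := by
  obtain ⟨μ, hμ, h1⟩ := ch_co hg h
  rw [h1, dd_smul_left hμ]

lemma norm_co {f g : V n} (hf : ‖f‖ = 1) (hg : ‖g‖ = 1) (h : dd f g ≤ 1 / 2) : ‖co f g‖ ≤ 2 * dd f g := by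
  have h0 : (inner ℂ f g : ℂ) ≠ 0 := inner_ne hf hg (by linarith)
  have h1 := norm_sq_add hf (co_mem (g := g) hf)
  rw [co_add h0, norm_smul, hg, mul_one, norm_inv, inv_pow] at h1
  have h2 := dd_sq hf hg
  have h3 := dd_nonneg f g
  have h4 : 0 < ‖(inner ℂ f g : ℂ)‖ ^ 2 := by
    have := norm_pos_iff.2 h0
    positivity
  have h5 : ‖co f g‖ ^ 2 * ‖(inner ℂ f g : ℂ)‖ ^ 2 = dd f g ^ 2 := by
    have h6 : ‖co f g‖ ^ 2 = (‖(inner ℂ f g : ℂ)‖ ^ 2)⁻¹ - 1 := by linarith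
    rw [h6, h2]
    field_simp
  have h7 : 3 / 4 ≤ ‖(inner ℂ f g : ℂ)‖ ^ 2 := by nlinarith
  have h8 : ‖co f g‖ ^ 2 ≤ (2 * dd f g) ^ 2 := by
    nlinarith [mul_nonneg (sq_nonneg ‖co f g‖) (by linarith : 0 ≤ ‖(inner ℂ f g : ℂ)‖ ^ 2 - 3 / 4)]
  exact (pow_le_pow_iff_left₀ (norm_nonneg _) (by positivity) two_ne_zero).1 h8

/-- the map in the charts -/
def W (g : V n → V n) (v y : V n) : V n := co (g v) (g (ch v y))

/-- `g` is a near similarity at the scale `r` around the line of `v`, in the affine charts -/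
def NS (ε : ℝ) (g : V n → V n) (v : V n) (r : ℝ) : Prop :=
  ∃ κ : ℝ, 0 ≤ κ ∧ ∀ y ∈ K v, ∀ z ∈ K v, ‖y‖ ≤ r → ‖z‖ ≤ r → |κ * ‖W g v y - W g v z‖ - ‖y - z‖| ≤ ε * r

/-- **weakly quasisymmetric maps are near similarities at small scales** -/
theorem ns_of_wq (hn : 2 ≤ n) {ε ω : ℝ} (hε : 0 < ε) (hω : 0 < ω) :
    ∃ ρ : ℝ, 0 < ρ ∧ ∃ H : ℝ, 1 < H ∧ H ≤ 2 ∧ ∀ g : V n → V n, (∀ v, ‖v‖ = 1 → ‖g v‖ = 1) →
      WQ H (fun v => pm (g v)) → (∀ a b, ‖a‖ = 1 → ‖b‖ = 1 → dd (g a) (g b) = 0 → dd a b = 0) →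
      ∀ v, ‖v‖ = 1 → (∀ y ∈ K v, ‖y‖ ≤ ρ → dd (g v) (g (ch v y)) ≤ ω) ∧ ∀ r, 0 < r → r ≤ ρ → NS ε g v r := by
  obtain ⟨δ, hδ, R, hR, hnear⟩ := Pool.Agent.H33.NC.near (2 * n) (by omega) hε 1
  obtain ⟨δ', hδ'⟩ : ∃ δ' : ℝ, δ' = min δ 1 := ⟨_, rfl⟩
  have hδ'0 : 0 < δ' := by rw [hδ']; positivity
  have hδ'1 : δ' ≤ 1 := by rw [hδ']; exact min_le_right _ _
  have hδ'δ : δ' ≤ δ := by rw [hδ']; exact min_le_left _ _
  obtain ⟨θ, hθ, H1, hH1, hH1', hrob⟩ := robust (n := n) hn (ε := δ' / 4) (by positivity) (by linarith)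
  obtain ⟨ω', hω'⟩ : ∃ ω' : ℝ, ω' = min ω (δ' / 4) := ⟨_, rfl⟩
  have hω'0 : 0 < ω' := by rw [hω']; positivity
  have hω'1 : ω' ≤ ω := by rw [hω']; exact min_le_left _ _
  have hω'2 : ω' ≤ δ' / 4 := by rw [hω']; exact min_le_right _ _
  obtain ⟨M, hM, H2, hH2, hH2', hec⟩ := ec (n := n) hn (η := ω' / 2) (by positivity)
  -- the scale
  obtain ⟨T, hT⟩ : ∃ T : ℝ, T = R + 1 := ⟨_, rfl⟩
  have hT1 : 1 ≤ T := by rw [hT]; linarith
  obtain ⟨ρ, hρ⟩ : ∃ ρ : ℝ, ρ = min (1 / (M * T)) (min (1 / (2 * T)) (min θ 1 / T)) := ⟨_, rfl⟩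
  have hρ0 : 0 < ρ := by rw [hρ]; positivity
  have hρ1 : M * (T * ρ) ≤ 1 := by
    have : ρ ≤ 1 / (M * T) := by rw [hρ]; exact min_le_left _ _
    rw [le_div_iff₀ (by positivity)] at this
    linarith
  have hρ2 : T * ρ ≤ 1 / 2 := by
    have : ρ ≤ 1 / (2 * T) := by rw [hρ]; exact (min_le_right _ _).trans (min_le_left _ _)
    rw [le_div_iff₀ (by positivity)] at this
    linarith
  have hρ3 : T * ρ ≤ min θ 1 := by
    have : ρ ≤ min θ 1 / T := by rw [hρ]; exact (min_le_right _ _).trans (min_le_right _ _)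
    rw [le_div_iff₀ (by positivity)] at this
    linarith
  refine ⟨ρ, hρ0, min H1 H2, lt_min hH1 hH2, (min_le_left _ _).trans hH1', fun g hg hW hinj v hv => ?_⟩
  have hW1 : WQ H1 (fun v => pm (g v)) := hW.mono (min_le_left _ _)
  have hW2 : WQ H2 (fun v => pm (g v)) := hW.mono (min_le_right _ _)
  -- the images of small balls are small
  have hsmall : ∀ y ∈ K v, ‖y‖ ≤ T * ρ → dd (g v) (g (ch v y)) ≤ ω' / 2 := by
    intro y hy hyρ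
    obtain ⟨o, ho, hvo, -⟩ := exists_orth2 hn v v
    have h1 : dd v o = 1 := by
      have h2 := dd_sq hv ho
      rw [hvo, norm_zero] at h2
      have h3 := dd_nonneg v o
      nlinarith
    have h4 : dd v (ch v y) ≤ ‖y‖ := by
      have h5 := dd_ch_le hv (Submodule.zero_mem (K v)) hy
      rwa [ch_zero hv, zero_sub, norm_neg] at h5
    have h6 := hec _ hW2 v (ch v y) o hv (ch_unit hv hy) ho (by
      rw [h1]
      exact (mul_le_mul_of_nonneg_left (h4.trans hyρ) (by linarith)).trans hρ1)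
    have h7 : dd (g v) (g o) ≤ 1 := dd_le_one (hg v hv) (hg o ho)
    calc dd (g v) (g (ch v y)) ≤ ω' / 2 * dd (g v) (g o) := h6
      _ ≤ ω' / 2 * 1 := mul_le_mul_of_nonneg_left h7 (by positivity)
      _ = ω' / 2 := mul_one _
  have hsmallW : ∀ y ∈ K v, ‖y‖ ≤ T * ρ → ‖W g v y‖ ≤ ω' := by
    intro y hy hyρ
    have h1 := hsmall y hy hyρ
    have h2 := norm_co (hg v hv) (hg _ (ch_unit hv hy)) (by linarith)
    unfold W
    linarith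
  have hρT : ρ ≤ T * ρ := by nlinarith
  refine ⟨fun y hy hyρ => (hsmall y hy (hyρ.trans hρT)).trans (by linarith), fun r hr hrρ => ?_⟩
  obtain ⟨I⟩ := exists_iso (unit_ne hv)
  obtain ⟨J'⟩ := exists_iso (unit_ne (hg v hv))
  obtain ⟨J, hJ⟩ : ∃ J : K (g v) ≃ₗᵢ[ℝ] E (2 * n), J = J'.symm := ⟨_, rfl⟩
  obtain ⟨F, hF⟩ : ∃ F : E (2 * n) → E (2 * n),
      ∀ u, F u = J ⟨W g v (r • (I u : V n)), co_mem (hg v hv)⟩ := ⟨_, fun _ => rfl⟩
  have hFn : ∀ u u', ‖F u - F u'‖ = ‖W g v (r • (I u : V n)) - W g v (r • (I u' : V n))‖ := by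
    intro u u'
    rw [hF, hF, ← map_sub, J.norm_map]
    rfl
  have hmemI : ∀ u, r • (I u : V n) ∈ K v := fun u => Submodule.smul_mem _ _ (I u).2
  have hnI : ∀ u, ‖r • (I u : V n)‖ = r * ‖u‖ := by
    intro u
    rw [norm_smul, Real.norm_of_nonneg hr.le]
    congr 1
    exact I.norm_map u
  have hnI2 : ∀ u u', ‖r • (I u : V n) - r • (I u' : V n)‖ = r * ‖u - u'‖ := by
    intro u u'
    have h1 : r • (I u : V n) - r • (I u' : V n) = r • (I (u - u') : V n) := by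
      rw [map_sub, Submodule.coe_sub, smul_sub]
    rw [h1, hnI]
  have hbd : ∀ u, ‖u‖ ≤ R → ‖r • (I u : V n)‖ ≤ T * ρ := by
    intro u hu
    rw [hnI, hT]
    nlinarith [norm_nonneg u]
  obtain ⟨κ, hκ, hκ2⟩ := hnear F (by
    intro u u' u'' hu hu' hu'' h1 h2
    obtain ⟨a, ha⟩ : ∃ a : V n, a = ch v (r • (I u : V n)) := ⟨_, rfl⟩
    obtain ⟨b, hb⟩ : ∃ b : V n, b = ch v (r • (I u' : V n)) := ⟨_, rfl⟩
    obtain ⟨c, hc⟩ : ∃ c : V n, c = ch v (r • (I u'' : V n)) := ⟨_, rfl⟩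
    have ha1 : ‖a‖ = 1 := by rw [ha]; exact ch_unit hv (hmemI u)
    have hb1 : ‖b‖ = 1 := by rw [hb]; exact ch_unit hv (hmemI u')
    have hc1 : ‖c‖ = 1 := by rw [hc]; exact ch_unit hv (hmemI u'')
    have h3 : dd a b ≤ r := by
      have h4 := dd_ch_le hv (hmemI u) (hmemI u')
      rwa [hnI2, h1, mul_one, ← ha, ← hb] at h4
    have h3' : dd a c ≤ r := by
      have h4 := dd_ch_le hv (hmemI u) (hmemI u'')
      rwa [hnI2, h2, mul_one, ← ha, ← hc] at h4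
    have h5 : r ≤ (1 + (T * ρ) ^ 2) * dd a c := by
      have h6 := le_dd_ch hv (hmemI u) (hmemI u'') (hbd u hu) (hbd u'' hu'')
      rwa [hnI2, h2, mul_one, ← ha, ← hc] at h6
    have hTρ : (T * ρ) ^ 2 ≤ θ := by
      have e1 : T * ρ ≤ θ := hρ3.trans (min_le_left _ _)
      have e2 : 0 ≤ T * ρ := by positivity
      nlinarith
    have hr2 : r ≤ 1 / 2 := by nlinarith
    have h7 := hrob _ hW1 a b c ha1 hb1 hc1 (by linarith) (by linarith)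
      ((h3.trans h5).trans (mul_le_mul_of_nonneg_right (by linarith) (dd_nonneg _ _)))
    -- from the lines to the coordinates
    have hdw : ∀ u₁ u₂ : E (2 * n), ‖u₁‖ ≤ R → ‖u₂‖ ≤ R →
        dd (g (ch v (r • (I u₁ : V n)))) (g (ch v (r • (I u₂ : V n)))) ≤ ‖F u₁ - F u₂‖ ∧
        ‖F u₁ - F u₂‖ ≤ (1 + ω' ^ 2) * dd (g (ch v (r • (I u₁ : V n)))) (g (ch v (r • (I u₂ : V n)))) := by
      intro u₁ u₂ hu₁ hu₂
      have e1 : ∀ u₀ : E (2 * n), ‖u₀‖ ≤ R →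
          (inner ℂ (g v) (g (ch v (r • (I u₀ : V n)))) : ℂ) ≠ 0 := fun u₀ hu₀ =>
        inner_ne (hg v hv) (hg _ (ch_unit hv (hmemI u₀))) (by
          have := hsmall _ (hmemI u₀) (hbd u₀ hu₀)
          linarith)
      have e2 := dd_ch_le (hg v hv) (co_mem (g := g (ch v (r • (I u₁ : V n)))) (hg v hv))
        (co_mem (g := g (ch v (r • (I u₂ : V n)))) (hg v hv))
      have e3 := le_dd_ch (hg v hv) (co_mem (g := g (ch v (r • (I u₁ : V n)))) (hg v hv))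
        (co_mem (g := g (ch v (r • (I u₂ : V n)))) (hg v hv)) (hsmallW _ (hmemI u₁) (hbd u₁ hu₁))
        (hsmallW _ (hmemI u₂) (hbd u₂ hu₂))
      have e4 : dd (ch (g v) (co (g v) (g (ch v (r • (I u₁ : V n))))))
          (ch (g v) (co (g v) (g (ch v (r • (I u₂ : V n)))))) =
          dd (g (ch v (r • (I u₁ : V n)))) (g (ch v (r • (I u₂ : V n)))) := by
        rw [dd_ch_co (hg _ (ch_unit hv (hmemI u₁))) (e1 u₁ hu₁), dd_comm,
          dd_ch_co (hg _ (ch_unit hv (hmemI u₂))) (e1 u₂ hu₂), dd_comm]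
      rw [e4] at e2 e3
      rw [hFn]
      exact ⟨e2, e3⟩
    obtain ⟨-, k1⟩ := hdw u u' hu hu'
    obtain ⟨k2, -⟩ := hdw u u'' hu hu''
    rw [← ha, ← hb] at k1
    rw [← ha, ← hc] at k2
    have h8 : dd (g a) (g b) ≤ (1 + δ' / 4) * dd (g a) (g c) := h7
    have hpos : 0 < dd (g a) (g c) := by
      refine lt_of_le_of_ne (dd_nonneg _ _) fun h0 => ?_
      have h9 := hinj a c ha1 hc1 h0.symm
      rw [h9, mul_zero] at h5
      linarith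
    have hω2 : ω' ^ 2 ≤ δ' / 4 := by nlinarith
    calc ‖F u - F u'‖ ≤ (1 + ω' ^ 2) * dd (g a) (g b) := k1
      _ ≤ (1 + δ' / 4) * ((1 + δ' / 4) * dd (g a) (g c)) := by
          refine mul_le_mul (by linarith) h8 (dd_nonneg _ _) (by positivity)
      _ = ((1 + δ' / 4) * (1 + δ' / 4)) * dd (g a) (g c) := by ring
      _ < (1 + δ) * dd (g a) (g c) := by
          refine mul_lt_mul_of_pos_right ?_ hpos
          nlinarith
      _ ≤ (1 + δ) * ‖F u - F u''‖ := mul_le_mul_of_nonneg_left k2 (by positivity))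
  refine ⟨κ * r, by positivity, fun y hy z hz hyr hzr => ?_⟩
  have key : ∀ y : V n, y ∈ K v → ‖y‖ ≤ r → ∃ u : E (2 * n), ‖u‖ ≤ 1 ∧ r • (I u : V n) = y := by
    intro y hy hyr
    refine ⟨I.symm ⟨r⁻¹ • y, Submodule.smul_mem _ _ hy⟩, ?_, ?_⟩
    · rw [I.symm.norm_map]
      show ‖r⁻¹ • y‖ ≤ 1
      rw [norm_smul, norm_inv, Real.norm_of_nonneg hr.le, inv_mul_le_iff₀ hr, mul_one]
      exact hyr
    · rw [I.apply_symm_apply]
      show r • r⁻¹ • y = y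
      rw [smul_smul, mul_inv_cancel₀ hr.ne', one_smul]
  obtain ⟨u, hu, hu2⟩ := key y hy hyr
  obtain ⟨u', hu', hu2'⟩ := key z hz hzr
  have h1 := hκ2 u u' hu hu'
  rw [hFn, hu2, hu2'] at h1
  have h2 : ‖y - z‖ = r * ‖u - u'‖ := by rw [← hu2, ← hu2', hnI2]
  rw [h2]
  have h3 : κ * r * ‖W g v y - W g v z‖ - r * ‖u - u'‖ = r * (κ * ‖W g v y - W g v z‖ - ‖u - u'‖) := by ring
  rw [h3, abs_mul, abs_of_pos hr, mul_comm ε]
  exact mul_le_mul_of_nonneg_left h1 hr.le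

end Pool.Agent.H33.QS
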