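import Pool.Agent.H33.QS.Iso

/-!
# The isotopy of a diffeomorphism close to a unitary map
-/

set_option autoImplicit false

open Set Filter Topology Metric Function MeasureTheory
open scoped ContDiff

noncomputable section

namespace Pool.Agent.H33.QS

open Pool.Agent.Q196.NP (Near eps eps_pos HD Iso iso_of_near U1 Mat CP line col line_mem line_smul col_line
  col_smooth coord_smooth exists_line iso_linear lift_der line_smooth)
open Pool.Agent.H13.Wig (V ap ap_zero ap_smul ap_line nz nz_unit line_nz pr norm_sub_pr inner_le_one)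

variable {n : ℕ}

/-- **the unitary case** -/
theorem unitary_case2 {φ ψ : Mat n → Mat n} (hφs : ContDiff ℝ ∞ φ) (hψs : ContDiff ℝ ∞ ψ)
    (hψφ : ∀ P ∈ CP n, ψ (φ P) = P) {g : V n → V n} (hg : ∀ v, ‖v‖ = 1 → ‖g v‖ = 1)
    (hgφ : ∀ v, ‖v‖ = 1 → φ (line v) = line (g v)) (U : V n ≃ₗᵢ[ℂ] V n) {s η : ℝ} (hs : 0 < s) (hs1 : s ≤ 1 / 2)
    (hη0 : 0 ≤ η) (hη1 : η < 1) (h2 : 5 * η ≤ eps (V n) * s)
    (hcl : ∀ v, ‖v‖ = 1 → dd (U.symm (g v)) v ≤ η)
    (hnear : ∀ v, ‖v‖ = 1 → ∀ r, 0 < r → r ≤ s → Near (eps (V n)) (lft fun v => U.symm (g v)) v r) :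
    ∃ F : V n → V n, Iso (U1 n) (fun v => v) F ∧ ∀ v, v ≠ 0 → φ (line v) = line (F v) := by
  -- the lift and the lift followed by the inverse of `U`
  set F : V n → V n := fun v => ap (φ (line v)) (U v) with hF
  set F' : V n → V n := fun v => U.symm (F v) with hF'
  have hF'0 : F' 0 = 0 := by
    show U.symm (ap _ (U 0)) = 0
    rw [map_zero, ap_zero, map_zero]
  have hFl : F' = lft fun v => U.symm (g v) := by
    funext v
    by_cases hv : v = 0
    · rw [hv, hF'0]
      unfold lft pr
      rw [inner_zero_right, zero_smul]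
    show U.symm (ap (φ (line v)) (U v)) = pr (U.symm (g (nz v))) v
    rw [← line_nz hv, hgφ _ (nz_unit hv), ap_line (hg _ (nz_unit hv))]
    unfold pr
    rw [map_smul]
    congr 1
    have := U.inner_map_map (U.symm (g (nz v))) v
    rw [U.apply_symm_apply] at this
    exact this
  have hclose : ∀ v, ‖F' v - v‖ ≤ η * ‖v‖ := by
    intro v
    rw [hFl]
    exact norm_lft_sub (fun v hv => by rw [U.symm.norm_map]; exact hg v hv) hη0 hcl v
  -- homogeneity and smoothness
  have hFhom : ∀ (c : ℂ) v, F (c • v) = c • F v := by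
    intro c v
    by_cases hc : c = 0
    · rw [hc, zero_smul, zero_smul]
      show ap _ (U 0) = 0
      rw [map_zero, ap_zero]
    · show ap (φ (line (c • v))) (U (c • v)) = c • ap (φ (line v)) (U v)
      rw [line_smul v hc, map_smul, ap_smul]
  have hFs : ContDiffOn ℝ ∞ F {0}ᶜ := by
    have hUs : ContDiff ℝ ∞ (fun v : V n => U v) :=
      ((U.toContinuousLinearEquiv : V n →L[ℂ] V n).restrictScalars ℝ).contDiff
    show ContDiffOn ℝ ∞ (fun v => ∑ j, (U v) j • col j (φ (line v))) {0}ᶜ
    refine ContDiffOn.sum fun j _ => ?_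
    have a1 : ContDiff ℝ ∞ fun v : V n => (U v) j := (coord_smooth j).comp hUs
    have a2 : ContDiffOn ℝ ∞ (fun v : V n => col j (φ (line v))) {0}ᶜ := by
      intro v hv
      exact (((col_smooth j).contDiffAt).comp v
        (hφs.contDiffAt.comp v (line_smooth hv))).contDiffWithinAt
    exact a1.contDiffOn.smul a2
  have hUsym : ContDiff ℝ ∞ (fun v : V n => U.symm v) :=
    ((U.symm.toContinuousLinearEquiv : V n →L[ℂ] V n).restrictScalars ℝ).contDiff
  have hF's : ContDiffOn ℝ ∞ F' {0}ᶜ := hUsym.comp_contDiffOn hFs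
  have hF'ne : ∀ v, v ≠ 0 → F' v ≠ 0 := by
    intro v hv h0
    have h3 := hclose v
    rw [h0, zero_sub, norm_neg] at h3
    have : 0 < ‖v‖ := norm_pos_iff.2 hv
    nlinarith
  have hFF' : ∀ v, F v = U (F' v) := fun v => (U.apply_symm_apply _).symm
  have hFne : ∀ v, v ≠ 0 → F v ≠ 0 := by
    intro v hv h0
    refine hF'ne v hv ?_
    show U.symm (F v) = 0
    rw [h0, map_zero]
  have hφF : ∀ v, v ≠ 0 → φ (line v) = line (F v) := by
    intro v hv
    have e1 : F v = (inner ℂ (g (nz v)) (U v) : ℂ) • g (nz v) := by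
      show ap (φ (line v)) (U v) = _
      rw [← line_nz hv, hgφ _ (nz_unit hv), ap_line (hg _ (nz_unit hv))]
      rfl
    have hne : (inner ℂ (g (nz v)) (U v) : ℂ) ≠ 0 := by
      intro h0
      apply hFne v hv
      rw [e1, h0, zero_smul]
    rw [e1, line_smul _ hne, ← hgφ _ (nz_unit hv), line_nz hv]
  have hr : ∀ (r : ℝ) (v : V n), r • v = ((r : ℂ)) • v := fun r v => (Complex.coe_smul r v).symm
  have hF'hom : ∀ (c : ℂ) v, F' (c • v) = c • F' v := by
    intro c v
    show U.symm (F (c • v)) = c • U.symm (F v)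
    rw [hFhom, map_smul]
  have hHD : HD (U1 n) F' := by
    refine ⟨?_, ?_, ?_⟩
    · intro r _ v
      rw [hr, hr, hF'hom]
    · rintro _ ⟨μ, hμ, rfl⟩ v
      exact hF'hom μ v
    · intro v hv
      obtain ⟨A, hA⟩ := lift_der hψs hψφ hFhom hFs hFne hφF hv
      have hB : HasFDerivAt (fun v : V n => U.symm v)
          ((U.symm.toContinuousLinearEquiv : V n →L[ℂ] V n).restrictScalars ℝ) (F v) :=
        ((U.symm.toContinuousLinearEquiv : V n →L[ℂ] V n).restrictScalars ℝ).hasFDerivAt
      have hC := hB.comp v hA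
      obtain ⟨E, hE⟩ := Pool.Agent.H13.Gap.equiv_of_lower
        (D := (((U.symm.toContinuousLinearEquiv : V n →L[ℂ] V n).restrictScalars ℝ).comp
          (A : V n →L[ℝ] V n))) (c := ‖(A.symm : V n →L[ℝ] V n)‖⁻¹) (by
            by_contra hneg
            have h0 : ‖(A.symm : V n →L[ℝ] V n)‖ = 0 := by
              have := inv_nonneg.2 (norm_nonneg (A.symm : V n →L[ℝ] V n))
              have h5 := le_antisymm (not_lt.1 hneg) this
              exact inv_eq_zero.1 h5
            have h6 : (A.symm : V n →L[ℝ] V n) = 0 := norm_eq_zero.1 h0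
            have h7 : A.symm (A v) = 0 := by
              have := DFunLike.congr_fun h6 (A v)
              exact this
            rw [A.symm_apply_apply] at h7
            exact hv h7) (fun h => by
            show _ ≤ ‖U.symm (A h)‖
            rw [U.symm.norm_map]
            have h5 : ‖h‖ ≤ ‖(A.symm : V n →L[ℝ] V n)‖ * ‖A h‖ := by
              have := (A.symm : V n →L[ℝ] V n).le_opNorm (A h)
              have e : (A.symm : V n →L[ℝ] V n) (A h) = h := A.symm_apply_apply h
              rwa [e] at this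
            rcases (norm_nonneg (A.symm : V n →L[ℝ] V n)).eq_or_lt with h6 | h6
            · rw [← h6, inv_zero, zero_mul]
              exact norm_nonneg _
            · rw [inv_mul_le_iff₀ h6]
              exact h5)
      exact ⟨E, by rw [hE]; exact hC⟩
  have hI : Iso (U1 n) (fun v => v) F' :=
    iso_close hF's hHD hs hs1 hη0 hclose h2 (by rw [hFl]; exact hnear)
  have hI2 := hI.left_comp U.toContinuousLinearEquiv
  have hI3 := iso_linear U.toContinuousLinearEquiv
  have hI4 := hI3.trans hI2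
  refine ⟨F, ?_, hφF⟩
  have e : (fun v => U.toContinuousLinearEquiv (F' v)) = F := by
    funext v
    exact (hFF' v).symm
  rwa [e] at hI4


end Pool.Agent.H33.QS
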